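import Pool.Agent.Run7.h9.TP.Loc
import Pool.Agent.Run7.h9.BS.Fin

/-!
# Local data from the moments of the traces, and the four conclusions
-/

set_option autoImplicit false
set_option linter.unusedSectionVars false

namespace Run7.h9.TP

open NumberField IsDedekindDomain Finset Filter Topology Polynomial
open Run7.h876.MM (nv kv two_le_nv nv_pos avg card_kv norm_avg_le SZ mem_SZ instFieldKv instFintypeKv instDecKv)
open Run7.h876.EN Run7.h876.HY Run7.h9.BS Run7.h9.BS.LocalData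

section
variable {K : Type} [Field K] [NumberField K] {J : Type} [Fintype J] [DecidableEq J]

/-- **Local data from the moments of the traces.** -/
noncomputable def genData (a : ∀ v : HeightOneSpectrum (𝓞 K), (J → kv v) → ℕ → ℝ) (D₀ r C₁ Dv D1 : ℝ) (hD₀ : 0 ≤ D₀)
    (hC₁ : 0 ≤ C₁) (hDv : 0 < Dv) (bad : Set (HeightOneSpectrum (𝓞 K))) (hbad : bad.Finite)
    (h0 : ∀ v t m, |a v t m| ≤ D₀ * Real.sqrt (nv v) ^ (m + 1))
    (h1 : ∀ v, v ∉ bad → |(∑ t, a v t 0) / Fintype.card (J → kv v) + r| ≤ C₁ / Real.sqrt (nv v))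
    (h2 : ∀ v, v ∉ bad → |(∑ t, a v t 0 ^ 2) / Fintype.card (J → kv v) - Dv * nv v| ≤ C₁ * Real.sqrt (nv v))
    (h3 : ∀ v, v ∉ bad → |(∑ t, a v t 1) / Fintype.card (J → kv v) + D1 * nv v| ≤ C₁ * Real.sqrt (nv v)) :
    LocalData K J where
  lam v t := lamOf (nv v) (a v t)
  m := r + D1 / 2
  D := Dv
  D_pos := hDv
  L := 4 * D₀
  lam_le v t := (lamOf_facts hD₀ (by exact_mod_cast two_le_nv v) (a v t) (h0 v t)).1
  moments R hR := by
    classical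
    obtain ⟨C, hC, hloc⟩ := local_gen R D₀ r C₁ Dv D1 hR hD₀ hC₁ hDv.le
    obtain ⟨B, hB⟩ : ∃ B : ℝ, B = R * (4 * D₀) + (R * |r + D1 / 2| + R ^ 2 * Dv / 2) := ⟨_, rfl⟩
    obtain ⟨D, hD⟩ : ∃ D : ℝ, D = Real.exp B + 1 := ⟨_, rfl⟩
    have hD0 : 0 ≤ D := by rw [hD]; positivity
    refine ⟨fun v => C * (nv v : ℝ) ^ (-(3 / 2 : ℝ)) + (if v ∈ bad then D else 0), ?_, ?_⟩
    · refine Summable.add ?_ ?_
      · exact (Pool.Agent.H921R2.TatePole.nm_summable (K := K) (x := 3 / 2) (by norm_num)).mul_left C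
      · refine summable_of_hasFiniteSupport (hbad.subset fun v hv => ?_)
        by_contra hc
        apply hv
        exact if_neg hc
    · intro v κ hκ
      have hnv := nv_pos v
      have hq2 : (2 : ℝ) ≤ nv v := by exact_mod_cast two_le_nv v
      by_cases hb : v ∈ bad
      · simp only [if_pos hb]
        have h4 : ‖avg Finset.univ (fun t => Complex.exp (κ * (lamOf (nv v) (a v t) : ℝ) -
            (κ * ((r + D1 / 2 : ℝ) : ℂ) + κ ^ 2 * (Dv : ℂ) / 2) * cv v)) - 1‖ ≤ D := by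
          refine (norm_sub_le _ _).trans ?_
          rw [norm_one, hD]
          refine add_le_add_left ?_ _
          refine norm_avg_le _ _ _ (Real.exp_pos _).le fun t _ => ?_
          rw [Complex.norm_exp]
          refine Real.exp_le_exp.2 ((Complex.re_le_norm _).trans ((norm_sub_le _ _).trans ?_))
          rw [hB]
          refine add_le_add ?_ ?_
          · rw [norm_mul, Complex.norm_real, Real.norm_eq_abs]
            exact mul_le_mul hκ (lamOf_facts hD₀ hq2 (a v t) (h0 v t)).1 (abs_nonneg _) hR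
          · rw [norm_mul, Complex.norm_real, Real.norm_of_nonneg (cv_pos v).le]
            refine (mul_le_of_le_one_right (norm_nonneg _) (cv_le v)).trans ?_
            refine (norm_add_le _ _).trans (add_le_add ?_ ?_)
            · rw [norm_mul, Complex.norm_real, Real.norm_eq_abs]
              gcongr
            · rw [norm_div, norm_mul, norm_pow, Complex.norm_ofNat, Complex.norm_real, Real.norm_of_nonneg hDv.le]
              gcongr
        have h5 : 0 ≤ C * (nv v : ℝ) ^ (-(3 / 2 : ℝ)) := by positivity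
        linarith
      · simp only [if_neg hb, add_zero]
        have h := hloc κ hκ (nv v) hq2 (J → kv v) inferInstance (a v) (h0 v) (h1 v hb) (h2 v hb) (h3 v hb)
        have e1 : C / ((nv v : ℝ) * Real.sqrt (nv v)) = C * (nv v : ℝ) ^ (-(3 / 2 : ℝ)) := by
          rw [Real.rpow_neg hnv.le, div_eq_mul_inv]
          congr 2
          rw [Real.sqrt_eq_rpow]
          nth_rewrite 1 [← Real.rpow_one (nv v : ℝ)]
          rw [← Real.rpow_add hnv]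
          norm_num
        rw [e1] at h
        exact h

variable {ι : Type} [Fintype ι] [DecidableEq ι] (ω : Module.Basis ι ℤ (𝓞 K)) {G : Set (J → 𝓞 K)} {Cb : ℝ}
variable (𝓛 : LocalData K J) (B : ℕ → (J → 𝓞 K) → ℝ) (hB : ∀ Z t, B Z t = Real.exp (𝓛.W Z t))

include hB

theorem gen_log (Z : ℕ) (t : J → 𝓞 K) : Real.log (B Z t) = 𝓛.W Z t := by
  rw [hB, Real.log_exp]

theorem gen_mod (hCb : 0 ≤ Cb) (hG : Thin ω G Cb) {R θ ε : ℝ} (hR : 0 ≤ R) (hθ : 0 < θ) (hε : 0 < ε) :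
    ∃ Z₀ : ℕ, ∀ Z : ℕ, Z₀ ≤ Z → ∀ H : J → ℕ, (∀ j, Real.exp ((Z : ℝ) ^ (1 + θ)) ≤ H j) → ∀ κ : ℂ, ‖κ‖ ≤ R →
      ‖mean ω H G (fun t => (B Z t : ℂ) ^ κ) *
        (zetaProd K Z : ℂ) ^ (-(κ * 𝓛.m + κ ^ 2 * 𝓛.D / 2)) - 𝓛.Psi κ‖ ≤ ε := by
  obtain ⟨Z₀, hZ₀⟩ := 𝓛.modGauss ω hCb hG hR hθ hε
  refine ⟨Z₀, fun Z hZ H hH κ hκ => ?_⟩
  have h := hZ₀ Z hZ H hH κ hκ
  refine le_trans (le_of_eq ?_) h
  congr 3
  · congr 1
    funext t
    rw [hB, cpow_exp]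
  · rw [zetaProd_eq, cpow_exp]
    congr 1
    ring

theorem gen_clt (hCb : 0 ≤ Cb) (hG : Thin ω G Cb) {θ : ℝ} (hθ : 0 < θ) (a : ℝ) {ε : ℝ} (hε : 0 < ε) :
    ∃ Z₀ : ℕ, ∀ Z : ℕ, Z₀ ≤ Z → ∀ H : J → ℕ, (∀ j, Real.exp ((Z : ℝ) ^ (1 + θ)) ≤ H j) →
      |prop ω H G (fun t => Real.log (B Z t) ≤
        𝓛.m * Real.log (zetaProd K Z) + a * Real.sqrt (𝓛.D * Real.log (zetaProd K Z))) - Phi a| ≤ ε := by
  obtain ⟨Z₀, hZ₀⟩ := 𝓛.clt ω hCb hG hθ a hε
  refine ⟨Z₀, fun Z hZ H hH => ?_⟩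
  have h := hZ₀ Z hZ H hH
  refine le_trans (le_of_eq ?_) h
  congr 3
  funext t
  rw [gen_log 𝓛 B hB, log_zetaProd]

theorem gen_tail (hCb : 0 ≤ Cb) (hG : Thin ω G Cb) {θ : ℝ} (hθ : 0 < θ) {a : ℝ} (ha : 0 < a) :
    ∃ C : ℝ, 0 < C ∧ ∃ Z₀ : ℕ, ∀ Z : ℕ, Z₀ ≤ Z → ∀ H : J → ℕ, (∀ j, Real.exp ((Z : ℝ) ^ (1 + θ)) ≤ H j) →
      prop ω H G (fun t => a * Real.log (zetaProd K Z) ≤
        |Real.log (B Z t) - 𝓛.m * Real.log (zetaProd K Z)|) ≤ C * zetaProd K Z ^ (-(a ^ 2 / (2 * 𝓛.D))) := by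
  obtain ⟨C, hC, Z₀, hZ₀⟩ := 𝓛.tail ω hCb hG hθ ha
  refine ⟨C, hC, Z₀, fun Z hZ H hH => ?_⟩
  have h := hZ₀ Z hZ H hH
  rw [zetaProd_eq, ← Real.exp_mul, Real.log_exp]
  refine le_trans (le_of_eq ?_) (h.trans (le_of_eq ?_))
  · congr 1
    funext t
    rw [gen_log 𝓛 B hB]
  · congr 2
    ring

theorem gen_round (hCb : 0 ≤ Cb) (hG : Thin ω G Cb) (n : ℤ) (δ : ℝ) (hm : 𝓛.m = n + δ) {θ : ℝ} (hθ : 0 < θ) :
    ∃ C : ℝ, 0 < C ∧ ∃ Z₀ : ℕ, ∀ Z : ℕ, Z₀ ≤ Z → ∀ H : J → ℕ, (∀ j, Real.exp ((Z : ℝ) ^ (1 + θ)) ≤ H j) →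
      prop ω H G (fun t => round (Real.log (B Z t) / Real.log (zetaProd K Z) - δ) ≠ n) ≤
        C * zetaProd K Z ^ (-(1 / (8 * 𝓛.D))) := by
  obtain ⟨C, hC, Z₀, hZ₀⟩ := gen_tail ω 𝓛 B hB hCb hG hθ (a := 1 / 2) (by norm_num)
  obtain ⟨Z₁, hZ₁⟩ := Filter.eventually_atTop.1 ((VZ_atTop (K := K)).eventually_gt_atTop 0)
  refine ⟨C, hC, max Z₀ Z₁, fun Z hZ H hH => ?_⟩
  have h := hZ₀ Z ((le_max_left _ _).trans hZ) H hH
  have hV : 0 < Real.log (zetaProd K Z) := by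
    rw [log_zetaProd]
    exact hZ₁ Z ((le_max_right _ _).trans hZ)
  refine (prop_mono ω H fun t ht => ?_).trans (h.trans (le_of_eq ?_))
  · by_contra hcon
    rw [not_le] at hcon
    apply ht
    rw [hm] at hcon
    obtain ⟨V, hVd⟩ : ∃ V, V = Real.log (zetaProd K Z) := ⟨_, rfl⟩
    obtain ⟨b, hb⟩ : ∃ b, b = Real.log (B Z t) := ⟨_, rfl⟩
    rw [← hVd, ← hb] at hcon
    rw [← hVd, ← hb]
    rw [← hVd] at hV
    rw [abs_lt] at hcon
    rw [round_eq, Int.floor_eq_iff]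
    constructor
    · have : (n : ℝ) + δ - 1 / 2 ≤ b / V := by
        rw [le_div_iff₀ hV]
        nlinarith [hcon.1]
      linarith
    · have : b / V < (n : ℝ) + δ + 1 / 2 := by
        rw [div_lt_iff₀ hV]
        nlinarith [hcon.2]
      linarith
  · have hD := 𝓛.D_pos
    congr 2
    field_simp
    norm_num

end

end Run7.h9.TP
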