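import Pool.Agent.Run7.h9.BS.Defs

/-!
# The odd cohomology of products of curves at the centre: definitions
-/

set_option autoImplicit false

namespace Run7.h9.TP

open NumberField IsDedekindDomain Polynomial
open Run7.h876.MM (nv SZ)
open Run7.h876.HY (GoodAt Family frobTrace)

section
variable {K : Type} [Field K] [NumberField K] {I : Type} [Fintype I]

/-- The trace of the `m`-th power of the Frobenius at `v` on the cohomology of degree `j` of the product
of the curves `y² = f_i(x)`: the coefficient of `X^j` in `∏ (1 + tr(Frob_v^m | H¹(C_i)) X + Nv^m X²)`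
(Kuenneth formula). -/
noncomputable def traceH (f : I → (𝓞 K)[X]) (j : ℕ) (v : HeightOneSpectrum (𝓞 K)) (m : ℕ) : ℤ :=
  (∏ i, (1 + C (frobTrace (f i) v m) * X + C ((nv v : ℤ) ^ m) * X ^ 2)).coeff j

open Classical in
/-- `det(1 - Frob_v Nv^(-(j+1)/2) | H^j) = exp(- ∑ tr(Frob_v^m | H^j) Nv^(-m(j+1)/2) / m)`, the inverse of
the Euler factor of `H^j` at the central point `(j+1)/2`, `j` odd, at the places where all of the curves
have good reduction, and `1` otherwise. -/
noncomputable def localDet (f : I → (𝓞 K)[X]) (j : ℕ) (v : HeightOneSpectrum (𝓞 K)) : ℝ :=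
  if ∀ i, GoodAt (f i) v then
    Real.exp (-∑' m : ℕ, (traceH f j v (m + 1) : ℝ) / ((nv v : ℝ) ^ ((j + 1) / 2)) ^ (m + 1) / ((m : ℝ) + 1))
  else 1

/-- The product of the `localDet` over the places with `Nv ≤ Z`: the inverse of the part `Nv ≤ Z` of the
Euler product of the L-function of `H^j` at the central point. -/
noncomputable def centralProduct (Z : ℕ) (f : I → (𝓞 K)[X]) (j : ℕ) : ℝ := ∏ v ∈ SZ K Z, localDet f j v

end

/-- The multiplicity in `H^j` of the product of `e` curves of the component `⊗ H¹(C_i)`, `i ∈ S`, `|S| = s`: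
it is `binomial (e - s) ((j - s) / 2)` if `j - s` is an even number `≥ 0`, and `0` otherwise. -/
def mult (e j s : ℕ) : ℕ := if s ≤ j ∧ Even (j - s) then (e - s).choose ((j - s) / 2) else 0

/-- The number of the components `⊗ H¹(C_i)`, `i ∈ S`, of `H^j`, with multiplicities. -/
def comps (e j : ℕ) : ℕ := ∑ s ∈ Finset.range (e + 1), e.choose s * mult e j s

/-- The sum of the squares of the multiplicities. -/
def vari (e j : ℕ) : ℕ := ∑ s ∈ Finset.range (e + 1), e.choose s * mult e j s ^ 2

section
variable {K : Type} [Field K] [NumberField K] {I : Type} [Fintype I] [DecidableEq I] {J : I → Type} [∀ i, Fintype (J i)]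

/-- The polynomials of the member of the family of products with the parameters `t`. -/
noncomputable def members (𝓕 : ∀ i, Family K (J i)) (t : (Σ i, Fin 2 ⊕ J i) → 𝓞 K) (i : I) : (𝓞 K)[X] :=
  (𝓕 i).member fun j => t ⟨i, j⟩

/-- The parameters for which all of the curves are smooth. -/
def smoothAll (𝓕 : ∀ i, Family K (J i)) : Set ((Σ i, Fin 2 ⊕ J i) → 𝓞 K) :=
  {t | ∀ i, (fun j => t ⟨i, j⟩) ∈ (𝓕 i).smooth}

/-- The number of the marked classes in the Chow group of codimension `(j+1)/2` of the product, `e` the number
of the curves: for each marked point of the Jacobian of `C_i` and each set of `(j-1)/2` of the other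
curves one (the point times a point of each of these curves times the other curves). -/
def rank (𝓕 : ∀ i, Family K (J i)) (j : ℕ) : ℕ := (Fintype.card I - 1).choose ((j - 1) / 2) * ∑ i, (𝓕 i).rk

end

end Run7.h9.TP
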