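import Pool.Agent.Run7.h9.TP.Mom2
import Pool.Agent.Run7.h9.TP.GenD
import Pool.Agent.Run7.h9.TP.Defs

/-!
# Products of curves: the local data and the Euler factors
-/

set_option autoImplicit false
set_option linter.unusedSectionVars false

namespace Run7.h9.TP

open NumberField IsDedekindDomain Finset Filter Topology Polynomial
open Run7.h876.MM (nv kv two_le_nv nv_pos avg card_kv norm_avg_le SZ mem_SZ instFieldKv instFintypeKv instDecKv)
open Run7.h876.EN Run7.h876.HY Run7.h9.BS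

/-! ### the coefficients -/

theorem coeff_one (R : Type) [CommRing R] (c : R) (n k : ℕ) : ((1 + C c * X) ^ n : R[X]).coeff k = n.choose k * c ^ k := by
  rw [add_comm, add_pow, finsetSum_coeff]
  have h : ∀ m ∈ Finset.range (n + 1), ((C c * X) ^ m * 1 ^ (n - m) * ((n.choose m : ℕ) : R[X])).coeff k =
      if m = k then (n.choose k : R) * c ^ k else 0 := by
    intro m _
    rw [one_pow, mul_one, mul_pow, ← C_pow, ← C_eq_natCast, mul_assoc, coeff_C_mul, mul_comm (X ^ m), coeff_C_mul, coeff_X_pow]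
    split_ifs with h1 h2 h2
    · subst h1; ring
    · exact absurd h1.symm h2
    · exact absurd h2.symm h1
    · ring
  rw [Finset.sum_congr rfl h, Finset.sum_ite_eq']
  split_ifs with h1
  · rfl
  · rw [Nat.choose_eq_zero_of_lt (by rw [Finset.mem_range] at h1; omega)]
    simp

theorem coeff_two (R : Type) [CommRing R] (c : R) (n k : ℕ) :
    ((1 + C c * X ^ 2) ^ n : R[X]).coeff k = if Even k then n.choose (k / 2) * c ^ (k / 2) else 0 := by
  have h : (1 + C c * X ^ 2 : R[X]) ^ n = expand R 2 ((1 + C c * X) ^ n) := by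
    simp
  rw [h, coeff_expand (by norm_num)]
  by_cases hk : Even k
  · rw [if_pos hk.two_dvd, if_pos hk, coeff_one]
  · rw [if_neg (fun h2 => hk (even_iff_two_dvd.2 h2)), if_neg hk]

section
variable {K : Type} [Field K] [NumberField K]
variable {I : Type} [Fintype I] [DecidableEq I] {J : I → Type} [∀ i, Fintype (J i)] [∀ i, DecidableEq (J i)]
variable (𝓕 : ∀ i, Family K (J i))

theorem coeff_prod (a : I → ℤ) (c : ℤ) (j : ℕ) :
    (∏ i, (1 + C (a i) * X + C c * X ^ 2)).coeff j = ∑ S : Finset I, (cS I j S : ℤ) * c ^ ((j - S.card) / 2) * ∏ i ∈ S, a i := by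
  have h1 : ∀ i, (1 + C (a i) * X + C c * X ^ 2 : ℤ[X]) = C (a i) * X + (1 + C c * X ^ 2) := fun i => by ring
  simp only [h1]
  rw [Finset.prod_add, finsetSum_coeff, Finset.powerset_univ]
  refine Finset.sum_congr rfl fun S _ => ?_
  have h2 : ∏ i ∈ S, (C (a i) : ℤ[X]) = C (∏ i ∈ S, a i) := (map_prod C a S).symm
  rw [Finset.prod_mul_distrib, Finset.prod_const, Finset.prod_const, h2, mul_assoc, coeff_C_mul, mul_comm (X ^ S.card),
    coeff_mul_X_pow', coeff_two]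
  unfold cS
  rw [Finset.card_univ_sdiff]
  by_cases h : S.card ≤ j
  · rw [if_pos h]
    by_cases h2 : Even (j - S.card)
    · rw [if_pos h2, if_pos ⟨h, h2⟩]
      ring
    · rw [if_neg h2, if_neg (fun h3 => h2 h3.2)]
      simp
  · rw [if_neg h, if_neg (fun h3 => h h3.1)]
    simp

theorem ar_good (i : I) (v : HeightOneSpectrum (𝓞 K)) (t : Fin 2 ⊕ J i → 𝓞 K) (h : GoodAt ((𝓕 i).member t) v) (m : ℕ) :
    ar (𝓕 i) v (rd v t) m = frobTrace ((𝓕 i).member t) v (m + 1) ∧ eps (𝓕 i) v (rd v t) = 1 := by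
  classical
  obtain ⟨h1, h2⟩ := (goodAt_iff (𝓕 i) v t).1 h
  have h3 : frobTrace ((𝓕 i).member t) v (m + 1) = trc (fpol (𝓕 i) v (rd v t)) m := by
    unfold frobTrace
    rw [trc_eq h1 h2, card_kv, map_member, (fpol_monic (𝓕 i) v _).2, (member_monic (𝓕 i) t).2]
  constructor
  · unfold ar
    rw [if_pos h1, h3]
  · unfold eps
    rw [if_pos ⟨h1, h2⟩]

theorem ar_bad (i : I) (v : HeightOneSpectrum (𝓞 K)) (t : Fin 2 ⊕ J i → 𝓞 K) (h : ¬ GoodAt ((𝓕 i).member t) v) (m : ℕ) :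
    ar (𝓕 i) v (rd v t) m = 0 ∧ eps (𝓕 i) v (rd v t) = 0 := by
  classical
  have h0 : ¬ (ringChar (kv v) ≠ 2 ∧ (fpol (𝓕 i) v (rd v t)).Separable) := fun h2 => h ((goodAt_iff (𝓕 i) v t).2 h2)
  have h1 : eps (𝓕 i) v (rd v t) = 0 := by
    unfold eps
    rw [if_neg h0]
  refine ⟨?_, h1⟩
  rw [← ar_eps, h1, mul_zero]

theorem comp_rd (v : HeightOneSpectrum (𝓞 K)) (t : (Σ i, Fin 2 ⊕ J i) → 𝓞 K) (i : I) :
    comp i (rd v t) = rd v (comp i t) := rfl

theorem bet_good (j : ℕ) (hj : Odd j) (v : HeightOneSpectrum (𝓞 K)) (t : (Σ i, Fin 2 ⊕ J i) → 𝓞 K)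
    (h : ∀ i, GoodAt (members 𝓕 t i) v) (m : ℕ) :
    bet 𝓕 j v (rd v t) m * (1 / (nv v : ℝ)) ^ (m + 1) =
      (traceH (members 𝓕 t) j v (m + 1) : ℝ) / ((nv v : ℝ) ^ ((j + 1) / 2)) ^ (m + 1) := by
  obtain ⟨hQ1, hQQ⟩ := sqrt_facts v
  unfold traceH
  rw [coeff_prod]
  unfold bet
  push_cast
  rw [Finset.sum_mul, Finset.sum_div]
  refine Finset.sum_congr rfl fun S _ => ?_
  by_cases h0 : cS I j S = 0
  · rw [h0]; simp
  have hS : S.card ≤ j ∧ Even (j - S.card) := by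
    by_contra hc
    apply h0
    unfold cS
    rw [if_neg hc]
  obtain ⟨w, hw⟩ := hS.2
  have hjS : j = S.card + 2 * w := by omega
  have hw2 : (j - S.card) / 2 = w := by omega
  have hk : 2 * ((j + 1) / 2) = S.card + 2 * w + 1 := by
    obtain ⟨u, hu⟩ := hj
    omega
  have hprod : ∏ i, ph 𝓕 v S m i (comp i (rd v t)) =
      (∏ i ∈ S, (frobTrace (members 𝓕 t i) v (m + 1) : ℝ)) / (Real.sqrt (nv v) ^ (m + 1)) ^ S.card := by
    have h1 : ∀ i, ph 𝓕 v S m i (comp i (rd v t)) =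
        if i ∈ S then (frobTrace (members 𝓕 t i) v (m + 1) : ℝ) / Real.sqrt (nv v) ^ (m + 1) else 1 := by
      intro i
      obtain ⟨g1, g2⟩ := ar_good 𝓕 i v (comp i t) (h i) m
      unfold ph
      rw [comp_rd, g1, g2]
      rfl
    simp only [h1]
    rw [Finset.prod_ite_mem, Finset.univ_inter, Finset.prod_div_distrib, Finset.prod_const]
  rw [hprod, hw2]
  obtain ⟨P, hP⟩ : ∃ P : ℝ, P = ∏ i ∈ S, (frobTrace (members 𝓕 t i) v (m + 1) : ℝ) := ⟨_, rfl⟩
  obtain ⟨T, hT⟩ : ∃ T : ℝ, T = Real.sqrt (nv v) ^ (m + 1) := ⟨_, rfl⟩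
  have hT0 : T ≠ 0 := by rw [hT]; positivity
  have hqM : (nv v : ℝ) ^ (m + 1) = T ^ 2 := by
    rw [hT, ← hQQ, mul_pow, Real.sqrt_mul_self (by linarith)]
    ring
  rw [← hP, ← hT]
  have e1 : ((nv v : ℝ) ^ ((j + 1) / 2)) ^ (m + 1) = T ^ S.card * (T ^ 2) ^ w * T := by
    rw [← pow_mul, mul_comm ((j + 1) / 2), pow_mul, hqM, ← pow_mul, hk, ← pow_mul]
    ring
  rw [e1, one_div, inv_pow, hqM]
  field_simp

theorem bet_bad (j : ℕ) (v : HeightOneSpectrum (𝓞 K)) (t : (Σ i, Fin 2 ⊕ J i) → 𝓞 K)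
    (h : ¬ ∀ i, GoodAt (members 𝓕 t i) v) (m : ℕ) : bet 𝓕 j v (rd v t) m = 0 := by
  push Not at h
  obtain ⟨i, hi⟩ := h
  unfold bet
  refine Finset.sum_eq_zero fun S _ => ?_
  rw [Finset.prod_eq_zero (Finset.mem_univ i), mul_zero]
  obtain ⟨g1, g2⟩ := ar_bad 𝓕 i v (comp i t) hi m
  unfold ph
  rw [comp_rd, g1, g2]
  simp

theorem exp_lamOf (j : ℕ) (hj : Odd j) (v : HeightOneSpectrum (𝓞 K)) (t : (Σ i, Fin 2 ⊕ J i) → 𝓞 K) :
    Real.exp (lamOf (nv v) (bet 𝓕 j v (rd v t))) = localDet (members 𝓕 t) j v := by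
  classical
  unfold localDet lamOf
  split_ifs with h
  · congr 2
    refine tsum_congr fun m => ?_
    rw [bet_good 𝓕 j hj v t h m]
  · simp only [bet_bad 𝓕 j v t h]
    simp

/-! ### the constants -/

theorem cS_mult (j : ℕ) (S : Finset I) : cS I j S = mult (Fintype.card I) j S.card := rfl

theorem sum_card (g : ℕ → ℕ) : ∑ S : Finset I, g S.card = ∑ s ∈ Finset.range (Fintype.card I + 1), (Fintype.card I).choose s * g s := by
  rw [← Finset.powerset_univ, Finset.sum_powerset, Finset.card_univ]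
  refine Finset.sum_congr rfl fun s _ => ?_
  rw [Finset.sum_congr rfl (fun S hS => by rw [(Finset.mem_powersetCard.1 hS).2]), Finset.sum_const,
    Finset.card_powersetCard, Finset.card_univ, smul_eq_mul]

theorem Dc_eq (j : ℕ) : Dc I j = comps (Fintype.card I) j := by
  unfold Dc comps
  rw [← sum_card (I := I) (fun s => mult (Fintype.card I) j s)]
  rfl

theorem Dv_eq (j : ℕ) : Dv I j = vari (Fintype.card I) j := by
  unfold Dv vari
  rw [← sum_card (I := I) (fun s => mult (Fintype.card I) j s ^ 2)]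
  rfl

theorem Dv_pos (j : ℕ) (hj : Odd j) (hj2 : j < 2 * Fintype.card I) : 0 < Dv I j := by
  obtain ⟨u, hu⟩ := hj
  have hI : 0 < Fintype.card I := by omega
  obtain ⟨i₀⟩ := Fintype.card_pos_iff.1 hI
  unfold Dv
  refine Finset.sum_pos' (fun _ _ => Nat.zero_le _) ⟨{i₀}, Finset.mem_univ _, ?_⟩
  have : 0 < cS I j {i₀} := by
    unfold cS
    rw [Finset.card_singleton, if_pos ⟨by omega, by rw [hu]; simp⟩]
    exact Nat.choose_pos (by omega)
  positivity

/-- **The local data of the central products.** -/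
noncomputable def tpData (j : ℕ) (hj : Odd j) (hj2 : j < 2 * Fintype.card I) : LocalData K (Σ i, Fin 2 ⊕ J i) :=
  genData (fun v t m => bet 𝓕 j v t m) (Dc I j * BD 𝓕 ^ Fintype.card I) (m1 I 𝓕 j)
    (Dc I j * CC 𝓕 + (Dc I j : ℝ) ^ 2 * CC 𝓕) (Dv I j) (Dc I j)
    (by have := (BD_facts 𝓕).1; positivity)
    (by have := (CC_facts 𝓕).2.2.2.2; positivity)
    (by exact_mod_cast Dv_pos j hj hj2)
    {v | ∃ i, N0 (𝓕 i) ∈ v.asIdeal}
    (by
      rw [Set.ofPred_exists]
      exact Set.finite_iUnion fun i => finite_bad (𝓕 i))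
    (fun v t m => bet_le 𝓕 j v t m)
    (fun v hv => by
      have hv' : ∀ i, N0 (𝓕 i) ∉ v.asIdeal := fun i hi => hv ⟨i, hi⟩
      have hc := (CC_facts 𝓕).2.2.2.2
      obtain ⟨hQ1, hQQ⟩ := sqrt_facts v
      refine (moment_one 𝓕 j hj hv').trans ?_
      gcongr
      have : 0 ≤ (Dc I j : ℝ) ^ 2 * CC 𝓕 := by positivity
      linarith)
    (fun v hv => by
      have hv' : ∀ i, N0 (𝓕 i) ∉ v.asIdeal := fun i hi => hv ⟨i, hi⟩
      have hc := (CC_facts 𝓕).2.2.2.2
      refine (moment_sq 𝓕 j hv').trans ?_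
      gcongr
      have : 0 ≤ (Dc I j : ℝ) * CC 𝓕 := by positivity
      linarith)
    (fun v hv => by
      have hv' : ∀ i, N0 (𝓕 i) ∉ v.asIdeal := fun i hi => hv ⟨i, hi⟩
      have hc := (CC_facts 𝓕).2.2.2.2
      refine (moment_two 𝓕 j hj hv').trans ?_
      gcongr
      have : 0 ≤ (Dc I j : ℝ) ^ 2 * CC 𝓕 := by positivity
      linarith)

theorem centralProduct_eq (j : ℕ) (hj : Odd j) (hj2 : j < 2 * Fintype.card I) (Z : ℕ) (t : (Σ i, Fin 2 ⊕ J i) → 𝓞 K) :
    centralProduct Z (members 𝓕 t) j = Real.exp ((tpData 𝓕 j hj hj2).W Z t) := by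
  unfold centralProduct LocalData.W
  rw [Real.exp_sum]
  exact Finset.prod_congr rfl fun v _ => (exp_lamOf 𝓕 j hj v t).symm

/-! ### singular members -/

variable {ι : Type} [Fintype ι] [DecidableEq ι] (ω : Module.Basis ι ℤ (𝓞 K))

theorem smooth_fiber {J : Type} [Fintype J] [DecidableEq J] (𝓕 : Family K J) (t : Fin 2 ⊕ J → 𝓞 K) (B : Finset (𝓞 K))
    (hB : ∀ b ∈ B, Function.update t (Sum.inl 1) b ∉ 𝓕.smooth) : B.card ≤ 𝓕.F₀.natDegree + 𝓕.r := by
  classical
  set φ : 𝓞 K →+* K := algebraMap (𝓞 K) K with hφ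
  have hinj : Function.Injective φ := NumberField.RingOfIntegers.coe_injective
  set R : Finset K := Finset.univ.image (fun i => φ (𝓕.x i)) with hR
  have hRc : R.card = 𝓕.r := by
    rw [hR, Finset.card_image_of_injective _ (fun a b h => 𝓕.x_inj (hinj h)), Finset.card_univ, Fintype.card_fin]
  have hmR : mR R = (∏ i, (X - C (𝓕.x i))).map φ := by
    unfold mR
    rw [hR, Finset.prod_image fun i _ j _ h => 𝓕.x_inj (hinj h)]
    simp only [Polynomial.map_prod, Polynomial.map_sub, Polynomial.map_X, Polynomial.map_C]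
  set V : K[X] := (𝓕.member (Function.update t (Sum.inl 1) 0)).map φ with hV
  have hm := member_monic 𝓕 (Function.update t (Sum.inl 1) 0)
  have hVm : V.Monic := hm.1.map φ
  have hVd : V.natDegree = 𝓕.F₀.natDegree := by rw [hV, hm.1.natDegree_map, hm.2]
  have hdeg := 𝓕.deg
  have h := nonsep_fiber hVm (R := R) (by rw [hRc, hVd]; exact hdeg) (fun x hx => by
      obtain ⟨i, _, rfl⟩ := Finset.mem_image.1 hx
      have e1 : V.eval (φ (𝓕.x i)) = φ (𝓕.y i) ^ 2 := by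
        rw [hV, eval_map, eval₂_at_apply]
        unfold Family.member
        rw [eval_add, eval_mul, eval_prod, Finset.prod_eq_zero (Finset.mem_univ i) (by simp), zero_mul, add_zero,
          𝓕.on_curve, map_pow]
      rw [e1]
      refine pow_ne_zero _ ?_
      rw [Ne, map_eq_zero_iff φ hinj]
      exact 𝓕.y_ne i) (by
      rw [hRc, hVd]
      exact_mod_cast (by omega : 𝓕.F₀.natDegree - 𝓕.r ≠ 0)) (B.image φ) (fun b hb => by
      obtain ⟨b', hb', rfl⟩ := Finset.mem_image.1 hb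
      have h1 := hB b' hb'
      intro h2
      apply h1
      show ((𝓕.member (Function.update t (Sum.inl 1) b')).map φ).Separable
      rw [member_update, Polynomial.map_add, Polynomial.map_mul, ← hmR, Polynomial.map_C]
      exact h2)
  rw [Finset.card_image_of_injective _ hinj, hVd, hRc] at h
  exact h

theorem thin_forall {J' : Type} [Fintype J'] [DecidableEq J'] {G : I → Set (J' → 𝓞 K)} {C : I → ℝ}
    (h : ∀ i, Thin ω (G i) (C i)) : Thin ω {t | ∀ i, t ∈ G i} (∑ i, C i) := by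
  classical
  intro H M hH
  have h1 : ((box ι H).filter fun c => ¬ (tuple ω c ∈ {t | ∀ i, t ∈ G i})).card ≤
      ∑ i, ((box ι H).filter fun c => ¬ (tuple ω c ∈ G i)).card := by
    refine le_trans (Finset.card_le_card (t := Finset.univ.biUnion fun i => (box ι H).filter fun c => ¬ (tuple ω c ∈ G i))
      fun c hc => ?_) Finset.card_biUnion_le
    obtain ⟨hc1, hc2⟩ := Finset.mem_filter.1 hc
    rw [Set.mem_ofPred_eq, not_forall] at hc2
    obtain ⟨i, hi⟩ := hc2
    exact Finset.mem_biUnion.2 ⟨i, Finset.mem_univ _, Finset.mem_filter.2 ⟨hc1, hi⟩⟩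
  calc _ ≤ ((∑ i, ((box ι H).filter fun c => ¬ (tuple ω c ∈ G i)).card : ℕ) : ℝ) * (2 * M + 1) := by
        refine mul_le_mul_of_nonneg_right ?_ (by positivity)
        refine Nat.cast_le.2 (le_trans (le_of_eq ?_) h1)
        congr
    _ ≤ _ := by
        push_cast
        rw [Finset.sum_mul, Finset.sum_mul]
        exact Finset.sum_le_sum fun i _ => h i H M hH

theorem thin_one (i : I) : Thin ω {t : (Σ i, Fin 2 ⊕ J i) → 𝓞 K | (fun j => t ⟨i, j⟩) ∈ (𝓕 i).smooth}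
    (((𝓕 i).F₀.natDegree + (𝓕 i).r : ℕ) : ℝ) := by
  classical
  have : Nonempty ι := Fintype.card_pos_iff.1 (Run7.h876.MM.card_iota_pos ω)
  refine thin_of_fiber ω {t : (Σ i, Fin 2 ⊕ J i) → 𝓞 K | (fun j => t ⟨i, j⟩) ∈ (𝓕 i).smooth} ⟨i, Sum.inl 1⟩
    ((𝓕 i).F₀.natDegree + (𝓕 i).r) fun t B hB => ?_
  refine smooth_fiber (𝓕 i) (fun j => t ⟨i, j⟩) B fun b hb => ?_
  have h := hB b hb
  intro h2
  apply h
  show (fun j => Function.update t ⟨i, Sum.inl 1⟩ b ⟨i, j⟩) ∈ (𝓕 i).smooth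
  have e : (fun j => Function.update t ⟨i, Sum.inl 1⟩ b ⟨i, j⟩) = Function.update (fun j => t ⟨i, j⟩) (Sum.inl 1) b := by
    funext j
    by_cases hj : j = Sum.inl 1
    · subst hj
      simp
    · rw [Function.update_of_ne hj, Function.update_of_ne]
      intro h3
      apply hj
      injection h3
  rw [e]
  exact h2

theorem thin_all : Thin ω (smoothAll 𝓕) (∑ i, (((𝓕 i).F₀.natDegree + (𝓕 i).r : ℕ) : ℝ)) :=
  thin_forall ω (thin_one 𝓕 ω)

end

end Run7.h9.TP
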