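import Pool.Agent.Run7.h9.BS.Pow

/-!
# Local means: general mean and variance
-/

set_option autoImplicit false
set_option linter.unusedSectionVars false

namespace Run7.h9.TP

open Finset
open Run7.h876.MM (avg norm_avg_le avg_sub')
open Run7.h876.EN (exp_expand ell ell_tail ell_le)
open Run7.h9.BS (log_one')

/-- the constant of `avg_exp_est` -/
noncomputable def estC (A₀ A₁ A₂ A₃ : ℝ) : ℝ :=
  (A₀ + A₁ + A₂) ^ 3 * Real.exp (A₀ + A₁ + A₂) + A₂ * (A₁ + A₂) + (A₀ + A₁ + A₂) * (1 + (A₁ + A₂ + (A₀ + A₁ + A₂))) + A₃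

theorem estC_nonneg {A₀ A₁ A₂ A₃ : ℝ} (h0 : 0 ≤ A₀) (h1 : 0 ≤ A₁) (h2 : 0 ≤ A₂) (h3 : 0 ≤ A₃) : 0 ≤ estC A₀ A₁ A₂ A₃ := by
  unfold estC; positivity

/-- The mean of exponentials of small numbers. -/
theorem avg_exp_est {α : Type} [Fintype α] [Nonempty α] {z L1 L2 : α → ℂ} {A₀ A₁ A₂ A₃ y : ℝ} (hA₀ : 0 ≤ A₀) (hA₁ : 0 ≤ A₁)
    (hA₂ : 0 ≤ A₂) (hy0 : 0 ≤ y) (hy1 : y ≤ 1) (hE : ∀ t, ‖z t - (L1 t + L2 t)‖ ≤ A₀ * y ^ 3) (h1 : ∀ t, ‖L1 t‖ ≤ A₁ * y)
    (h2 : ∀ t, ‖L2 t‖ ≤ A₂ * y ^ 2) (h3 : ‖avg Finset.univ (fun t => L1 t + (L2 t + L1 t ^ 2 / 2))‖ ≤ A₃ * y ^ 3) :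
    ‖avg Finset.univ (fun t => Complex.exp (z t)) - 1‖ ≤ estC A₀ A₁ A₂ A₃ * y ^ 3 := by
  unfold estC
  obtain ⟨A, hA⟩ : ∃ A, A = A₀ + A₁ + A₂ := ⟨_, rfl⟩
  have hA0 : 0 ≤ A := by rw [hA]; positivity
  rw [← hA]
  have y2 : y ^ 2 ≤ y := by rw [sq]; exact mul_le_of_le_one_right hy0 hy1
  have y3 : y ^ 3 ≤ y := by
    have : y ^ 3 = y * (y ^ 2) := by ring
    rw [this]
    exact mul_le_of_le_one_right hy0 (pow_le_one₀ hy0 hy1)
  have hpt : ∀ t, ‖Complex.exp (z t) - (1 + L1 t + (L2 t + L1 t ^ 2 / 2))‖ ≤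
      (A ^ 3 * Real.exp A + A₂ * (A₁ + A₂) + A * (1 + (A₁ + A₂ + A))) * y ^ 3 := by
    intro t
    have hz : ‖z t‖ ≤ A * y := by
      have e : z t = (z t - (L1 t + L2 t)) + (L1 t + L2 t) := by ring
      rw [e]
      refine (norm_add_le _ _).trans ((add_le_add (hE t) ((norm_add_le _ _).trans (add_le_add (h1 t) (h2 t)))).trans ?_)
      have g1 : A₀ * y ^ 3 ≤ A₀ * y := mul_le_mul_of_nonneg_left y3 hA₀
      have g2 : A₂ * y ^ 2 ≤ A₂ * y := mul_le_mul_of_nonneg_left y2 hA₂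
      rw [hA, add_mul, add_mul]
      linarith
    have hE' : ‖z t - (L1 t + L2 t)‖ ≤ A * (0 ^ 2 + y ^ 3) := by
      refine (hE t).trans ?_
      have : 0 ≤ (A₁ + A₂) * y ^ 3 := by positivity
      rw [hA]
      linarith
    have := exp_expand hA0 hA₁ hA₂ le_rfl zero_le_one hy0 hy1 hz hE' (h1 t) (h2 t)
    refine this.trans (le_of_eq ?_)
    ring
  have hone : avg Finset.univ (fun t : α => 1 + L1 t + (L2 t + L1 t ^ 2 / 2)) - 1 =
      avg Finset.univ (fun t => L1 t + (L2 t + L1 t ^ 2 / 2)) := by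
    have hc : ((Finset.univ : Finset α).card : ℂ) ≠ 0 := by
      have : 0 < (Finset.univ : Finset α).card := Finset.card_pos.2 Finset.univ_nonempty
      exact_mod_cast this.ne'
    unfold avg
    rw [Finset.sum_congr rfl fun t _ => add_assoc (1 : ℂ) (L1 t) _, Finset.sum_add_distrib, Finset.sum_const, nsmul_eq_mul]
    field_simp
    ring
  have hdiff : ‖avg Finset.univ (fun t => Complex.exp (z t)) - avg Finset.univ (fun t => 1 + L1 t + (L2 t + L1 t ^ 2 / 2))‖ ≤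
      (A ^ 3 * Real.exp A + A₂ * (A₁ + A₂) + A * (1 + (A₁ + A₂ + A))) * y ^ 3 := by
    rw [avg_sub']
    exact norm_avg_le _ _ _ (by positivity) fun t _ => hpt t
  have e : avg Finset.univ (fun t => Complex.exp (z t)) - 1 =
      (avg Finset.univ (fun t => Complex.exp (z t)) - avg Finset.univ (fun t => 1 + L1 t + (L2 t + L1 t ^ 2 / 2))) +
      (avg Finset.univ (fun t => 1 + L1 t + (L2 t + L1 t ^ 2 / 2)) - 1) := by ring
  rw [e, hone]
  refine (norm_add_le _ _).trans ((add_le_add hdiff h3).trans (le_of_eq ?_))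
  ring

/-- minus the logarithm of an Euler factor at `X = 1/q` -/
noncomputable def lamOf (q : ℝ) (a : ℕ → ℝ) : ℝ := -∑' m : ℕ, a m * (1 / q) ^ (m + 1) / ((m : ℝ) + 1)

theorem lamOf_eq (q : ℝ) (a : ℕ → ℝ) : (lamOf q a : ℂ) = -ell (fun m => (a m : ℂ)) ((1 / q : ℝ) : ℂ) := by
  unfold lamOf ell
  rw [Complex.ofReal_neg, Complex.ofReal_tsum]
  congr 1
  refine tsum_congr fun m => ?_
  push_cast
  ring

theorem lamOf_facts {D q : ℝ} (hD : 0 ≤ D) (hq : 2 ≤ q) (a : ℕ → ℝ) (ha : ∀ m, |a m| ≤ D * Real.sqrt q ^ (m + 1)) :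
    |lamOf q a| ≤ 4 * D ∧ |lamOf q a + (a 0 / q + a 1 / (2 * q ^ 2))| ≤ 4 * D * (1 / Real.sqrt q) ^ 3 := by
  have hq0 : 0 < q := by linarith
  obtain ⟨Q, hQ⟩ : ∃ Q, Q = Real.sqrt q := ⟨_, rfl⟩
  rw [← hQ] at ha ⊢
  have hQQ : Q * Q = q := by rw [hQ]; exact Real.mul_self_sqrt hq0.le
  have hQ2 : 7 / 5 ≤ Q := by
    rw [hQ]
    exact Real.le_sqrt_of_sq_le (by norm_num; linarith)
  have hQ0 : 0 < Q := by linarith
  have hy : 1 / Q ≤ 5 / 7 := by rw [div_le_iff₀ hQ0]; linarith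
  have hX : Q * ‖((1 / q : ℝ) : ℂ)‖ ≤ 1 / Q := by
    rw [Complex.norm_real, Real.norm_of_nonneg (by positivity), ← hQQ]
    refine le_of_eq ?_
    field_simp
  have hy1 : 1 / Q < 1 := by linarith
  have ha' : ∀ m, ‖(fun m => (a m : ℂ)) m‖ ≤ D * Q ^ (m + 1) := fun m => by
    show ‖(a m : ℂ)‖ ≤ _
    rw [Complex.norm_real, Real.norm_eq_abs]; exact ha m
  have hXe : Q * ‖((1 / q : ℝ) : ℂ)‖ = 1 / Q := by
    rw [Complex.norm_real, Real.norm_of_nonneg (by positivity), ← hQQ]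
    field_simp
  have h1 := ell_le hD hQ0.le ha' hX hy1
  have h2 := ell_tail hD hQ0.le ha' hX hy1 2
  rw [hXe] at h1 h2
  have hw : (1 - 1 / Q)⁻¹ ≤ 7 / 2 := by
    rw [inv_le_comm₀ (by linarith) (by norm_num)]
    linarith
  have hpos : (0 : ℝ) < 1 / Q := by positivity
  have hw0 : 0 < (1 - 1 / Q)⁻¹ := inv_pos.2 (by linarith)
  constructor
  · rw [← Real.norm_eq_abs, ← Complex.norm_real, lamOf_eq, norm_neg]
    refine h1.trans ?_
    rw [div_eq_mul_inv]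
    have : D * (1 / Q) * (1 - 1 / Q)⁻¹ ≤ D * (5 / 7) * (7 / 2) := by gcongr
    linarith
  · rw [← Real.norm_eq_abs, ← Complex.norm_real]
    have e : ((lamOf q a + (a 0 / q + a 1 / (2 * q ^ 2)) : ℝ) : ℂ) =
        -(ell (fun m => (a m : ℂ)) ((1 / q : ℝ) : ℂ) - ∑ m ∈ Finset.range 2, (a m : ℂ) * ((1 / q : ℝ) : ℂ) ^ (m + 1) / ((m : ℂ) + 1)) := by
      rw [Complex.ofReal_add, lamOf_eq, Finset.sum_range_succ, Finset.sum_range_one]
      push_cast
      field_simp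
      ring
    rw [e, norm_neg]
    refine h2.trans ?_
    rw [div_eq_mul_inv]
    have e3 : (1 / Q) ^ (2 + 1) = (1 / Q) ^ 3 := by norm_num
    rw [e3]
    calc D * (1 / Q) ^ 3 * (1 - 1 / Q)⁻¹ ≤ D * (1 / Q) ^ 3 * (7 / 2) := by gcongr
      _ ≤ 4 * D * (1 / Q) ^ 3 := by
          have : 0 ≤ D * (1 / Q) ^ 3 := by positivity
          linarith

/-- **The local estimate.** -/
theorem local_gen (R D₀ r C₁ Dv D1 : ℝ) (hR : 0 ≤ R) (hD₀ : 0 ≤ D₀) (hC₁ : 0 ≤ C₁) (hDv : 0 ≤ Dv) :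
    ∃ C : ℝ, 0 ≤ C ∧ ∀ κ : ℂ, ‖κ‖ ≤ R → ∀ q : ℝ, 2 ≤ q → ∀ (α : Type) [Fintype α] (_ : Nonempty α) (a : α → ℕ → ℝ),
      (∀ t m, |a t m| ≤ D₀ * Real.sqrt q ^ (m + 1)) →
      |(∑ t, a t 0) / Fintype.card α + r| ≤ C₁ / Real.sqrt q →
      |(∑ t, a t 0 ^ 2) / Fintype.card α - Dv * q| ≤ C₁ * Real.sqrt q →
      |(∑ t, a t 1) / Fintype.card α + D1 * q| ≤ C₁ * Real.sqrt q →
      ‖avg Finset.univ (fun t => Complex.exp (κ * lamOf q (a t) -
        (κ * (r + D1 / 2 : ℝ) + κ ^ 2 * Dv / 2) * (-Real.log (1 - 1 / q) : ℝ))) - 1‖ ≤ C / (q * Real.sqrt q) := by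
  obtain ⟨M, hM⟩ : ∃ M, M = R * |r + D1 / 2| + R ^ 2 * Dv / 2 := ⟨_, rfl⟩
  have hM0 : 0 ≤ M := by rw [hM]; positivity
  have hA₀ : 0 ≤ 4 * R * D₀ + 2 * M := by positivity
  have hA₁ : 0 ≤ R * D₀ := by positivity
  have hA₂ : 0 ≤ R * D₀ / 2 + M := by positivity
  have hA₃ : 0 ≤ R * C₁ + R ^ 2 * C₁ / 2 + R * C₁ / 2 := by positivity
  refine ⟨estC (4 * R * D₀ + 2 * M) (R * D₀) (R * D₀ / 2 + M) (R * C₁ + R ^ 2 * C₁ / 2 + R * C₁ / 2),
    estC_nonneg hA₀ hA₁ hA₂ hA₃, fun κ hκ q hq α _ _ a ha h1 h2 h3 => ?_⟩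
  · have hq0 : 0 < q := by linarith
    obtain ⟨Q, hQ⟩ : ∃ Q, Q = Real.sqrt q := ⟨_, rfl⟩
    have hQ1 : 1 ≤ Q := by rw [hQ]; exact Real.one_le_sqrt.2 (by linarith)
    have hQ0 : 0 < Q := by linarith
    have hQq : Q * Q = q := by rw [hQ]; exact Real.mul_self_sqrt hq0.le
    have hfac := fun t => lamOf_facts hD₀ hq (a t) (ha t)
    rw [← hQ] at h1 h2 h3 ⊢
    simp only [← hQ] at ha hfac
    obtain ⟨y, hy⟩ : ∃ y, y = 1 / Q := ⟨_, rfl⟩
    rw [← hy] at hfac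
    have hy0 : 0 < y := by rw [hy]; positivity
    have hy1 : y ≤ 1 := by rw [hy, div_le_one hQ0]; exact hQ1
    have hyq : y ^ 2 = 1 / q := by rw [hy, ← hQq]; field_simp
    have hyq3 : y ^ 3 = 1 / (q * Q) := by rw [hy, ← hQq]; field_simp
    have hQy : Q = y * q := by rw [hy, ← hQq]; field_simp
    obtain ⟨c, hc⟩ : ∃ c, c = -Real.log (1 - 1 / q) := ⟨_, rfl⟩
    have hq2 : 1 / q ≤ 1 / 2 := one_div_le_one_div_of_le (by norm_num) hq
    have hcq := log_one' (x := 1 / q) (by positivity) hq2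
    rw [← hc] at hcq ⊢
    have hcard : (0 : ℝ) < Fintype.card α := by exact_mod_cast Fintype.card_pos
    obtain ⟨P, hP⟩ : ∃ P : ℂ, P = κ * (r + D1 / 2 : ℝ) + κ ^ 2 * Dv / 2 := ⟨_, rfl⟩
    have hPM : ‖P‖ ≤ M := by
      rw [hP, hM]
      refine (norm_add_le _ _).trans (add_le_add ?_ ?_)
      · rw [norm_mul, Complex.norm_real, Real.norm_eq_abs]
        gcongr
      · rw [norm_div, norm_mul, norm_pow, Complex.norm_real, Real.norm_of_nonneg hDv, Complex.norm_ofNat]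
        gcongr
    rw [← hP]
    have hbd0 : ∀ t, |a t 0| ≤ D₀ * Q := fun t => by simpa using ha t 0
    have hbd1 : ∀ t, |a t 1| ≤ D₀ * q := fun t => by
      have := ha t 1
      rwa [show Q ^ (1 + 1) = q from by rw [← hQq]; ring] at this
    have hmain := avg_exp_est (α := α) (z := fun t => κ * lamOf q (a t) - P * (c : ℝ))
      (L1 := fun t => -(κ * ((a t 0 / q : ℝ) : ℂ))) (L2 := fun t => -(κ * ((a t 1 / (2 * q ^ 2) : ℝ) : ℂ)) - P * ((1 / q : ℝ) : ℂ))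
      (A₃ := R * C₁ + R ^ 2 * C₁ / 2 + R * C₁ / 2) hA₀ hA₁ hA₂ hy0.le hy1 (fun t => by
        have e : κ * lamOf q (a t) - P * (c : ℝ) - (-(κ * ((a t 0 / q : ℝ) : ℂ)) + (-(κ * ((a t 1 / (2 * q ^ 2) : ℝ) : ℂ)) -
            P * ((1 / q : ℝ) : ℂ))) = κ * ((lamOf q (a t) + (a t 0 / q + a t 1 / (2 * q ^ 2)) : ℝ) : ℂ) - P * ((c - 1 / q : ℝ) : ℂ) := by
          push_cast; ring
        show ‖κ * lamOf q (a t) - P * (c : ℝ) - (-(κ * ((a t 0 / q : ℝ) : ℂ)) + (-(κ * ((a t 1 / (2 * q ^ 2) : ℝ) : ℂ)) -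
            P * ((1 / q : ℝ) : ℂ)))‖ ≤ _
        rw [e]
        refine (norm_sub_le _ _).trans ?_
        rw [norm_mul, norm_mul, Complex.norm_real, Complex.norm_real, Real.norm_eq_abs, Real.norm_eq_abs]
        have h4 : ‖κ‖ * |lamOf q (a t) + (a t 0 / q + a t 1 / (2 * q ^ 2))| ≤ R * (4 * D₀ * y ^ 3) :=
          mul_le_mul hκ (hfac t).2 (abs_nonneg _) hR
        have h5 : ‖P‖ * |c - 1 / q| ≤ M * (2 * y ^ 3) := by
          refine mul_le_mul hPM (hcq.trans ?_) (abs_nonneg _) hM0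
          rw [← hyq]
          have : (y ^ 2) ^ 2 ≤ y ^ 3 := by
            have e6 : (y ^ 2) ^ 2 = y ^ 3 * y := by ring
            rw [e6]
            exact mul_le_of_le_one_right (by positivity) hy1
          linarith
        refine (add_le_add h4 h5).trans (le_of_eq ?_)
        ring) (fun t => by
        rw [norm_neg, norm_mul, Complex.norm_real, Real.norm_eq_abs, abs_div, abs_of_pos hq0]
        calc ‖κ‖ * (|a t 0| / q) ≤ R * (D₀ * Q / q) := by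
              have := hbd0 t
              gcongr
          _ = R * D₀ * y := by rw [hQy]; field_simp) (fun t => by
        refine (norm_sub_le _ _).trans ?_
        rw [norm_neg, norm_mul, norm_mul, Complex.norm_real, Complex.norm_real, Real.norm_eq_abs, Real.norm_eq_abs, abs_div,
          abs_of_pos (by positivity : (0 : ℝ) < 2 * q ^ 2), abs_of_pos (by positivity : (0 : ℝ) < 1 / q), ← hyq, add_mul]
        refine add_le_add ?_ (mul_le_mul_of_nonneg_right hPM (by positivity))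
        calc ‖κ‖ * (|a t 1| / (2 * q ^ 2)) ≤ R * (D₀ * q / (2 * q ^ 2)) := by
              have := hbd1 t
              gcongr
          _ = R * D₀ / 2 * y ^ 2 := by rw [hyq]; field_simp) (by
        have e : avg Finset.univ (fun t => -(κ * ((a t 0 / q : ℝ) : ℂ)) + ((-(κ * ((a t 1 / (2 * q ^ 2) : ℝ) : ℂ)) -
            P * ((1 / q : ℝ) : ℂ)) + (-(κ * ((a t 0 / q : ℝ) : ℂ))) ^ 2 / 2)) =
            -κ * (((((∑ t, a t 0) / Fintype.card α + r) / q : ℝ)) : ℂ) +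
            κ ^ 2 / 2 * (((((∑ t, a t 0 ^ 2) / Fintype.card α - Dv * q) / q ^ 2 : ℝ)) : ℂ) -
            κ / 2 * (((((∑ t, a t 1) / Fintype.card α + D1 * q) / q ^ 2 : ℝ)) : ℂ) := by
          have hcardC : ((Fintype.card α : ℕ) : ℂ) ≠ 0 := by exact_mod_cast hcard.ne'
          have hqC : (q : ℂ) ≠ 0 := by exact_mod_cast hq0.ne'
          unfold avg
          have g2 : ∀ t, -(κ * ((a t 0 / q : ℝ) : ℂ)) + ((-(κ * ((a t 1 / (2 * q ^ 2) : ℝ) : ℂ)) -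
              P * ((1 / q : ℝ) : ℂ)) + (-(κ * ((a t 0 / q : ℝ) : ℂ))) ^ 2 / 2) =
              -(P / q) + (-κ / q) * (a t 0 : ℂ) + (-κ / (2 * q ^ 2)) * (a t 1 : ℂ) + (κ ^ 2 / (2 * q ^ 2)) * (a t 0 : ℂ) ^ 2 := by
            intro t
            push_cast
            field_simp
            ring
          rw [Finset.sum_congr rfl fun t _ => g2 t, Finset.sum_add_distrib, Finset.sum_add_distrib, Finset.sum_add_distrib,
            Finset.sum_const, nsmul_eq_mul, ← Finset.mul_sum, ← Finset.mul_sum, ← Finset.mul_sum, Finset.card_univ, hP]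
          push_cast
          field_simp
          ring
        rw [e]
        refine (norm_sub_le _ _).trans ((add_le_add (norm_add_le _ _) le_rfl).trans ?_)
        rw [norm_mul, norm_mul, norm_mul, Complex.norm_real, Complex.norm_real, Complex.norm_real, Real.norm_eq_abs,
          Real.norm_eq_abs, Real.norm_eq_abs, abs_div, abs_div, abs_div, abs_of_pos hq0,
          abs_of_pos (by positivity : (0 : ℝ) < q ^ 2), norm_neg, norm_div, norm_div, norm_pow, Complex.norm_ofNat]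
        have e1 : C₁ / Q / q = C₁ * y ^ 3 := by rw [hyq3]; field_simp
        have e2 : C₁ * Q / q ^ 2 = C₁ * y ^ 3 := by rw [hyq3, ← hQq]; field_simp
        have g1 : ‖κ‖ * (|(∑ t, a t 0) / Fintype.card α + r| / q) ≤ R * (C₁ * y ^ 3) := by
          rw [← e1]; gcongr
        have g2 : ‖κ‖ ^ 2 / 2 * (|(∑ t, a t 0 ^ 2) / Fintype.card α - Dv * q| / q ^ 2) ≤ R ^ 2 / 2 * (C₁ * y ^ 3) := by
          rw [← e2]; gcongr
        have g3 : ‖κ‖ / 2 * (|(∑ t, a t 1) / Fintype.card α + D1 * q| / q ^ 2) ≤ R / 2 * (C₁ * y ^ 3) := by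
          rw [← e2]; gcongr
        refine (add_le_add (add_le_add g1 g2) g3).trans (le_of_eq ?_)
        ring)
    refine hmain.trans (le_of_eq ?_)
    rw [hyq3, mul_one_div]

end Run7.h9.TP
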