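import Pool.Agent.Run7.h9.BS.Gen
import Pool.Agent.Run7.h9.TP.Loc

/-!
# Products of curves: the moments of the traces at a place
-/

set_option autoImplicit false
set_option linter.unusedSectionVars false

namespace Run7.h9.TP

open NumberField IsDedekindDomain Finset Filter Topology Polynomial
open Run7.h876.MM (nv kv two_le_nv nv_pos avg card_kv norm_avg_le SZ mem_SZ instFieldKv instFintypeKv instDecKv)
open Run7.h876.EN Run7.h876.HY Run7.h9.BS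

/-! ### products -/

theorem prod_close {I : Type} (s : Finset I) (x y : I → ℝ) {B δ : ℝ} (hB : 1 ≤ B) (hδ : 0 ≤ δ) (hx : ∀ i ∈ s, |x i| ≤ B)
    (hy : ∀ i ∈ s, |y i| ≤ B) (hxy : ∀ i ∈ s, |x i - y i| ≤ δ) :
    |∏ i ∈ s, x i - ∏ i ∈ s, y i| ≤ s.card * B ^ s.card * δ := by
  classical
  induction s using Finset.induction_on with
  | empty => simp
  | insert a s ha ih =>
    have ih' := ih (fun i hi => hx i (Finset.mem_insert_of_mem hi)) (fun i hi => hy i (Finset.mem_insert_of_mem hi))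
      (fun i hi => hxy i (Finset.mem_insert_of_mem hi))
    rw [Finset.prod_insert ha, Finset.prod_insert ha, Finset.card_insert_of_notMem ha]
    have e : x a * ∏ i ∈ s, x i - y a * ∏ i ∈ s, y i = (x a - y a) * ∏ i ∈ s, x i + y a * (∏ i ∈ s, x i - ∏ i ∈ s, y i) := by ring
    rw [e]
    have hP : |∏ i ∈ s, x i| ≤ B ^ s.card := by
      rw [Finset.abs_prod, ← Finset.prod_const]
      exact Finset.prod_le_prod (fun _ _ => abs_nonneg _) fun i hi => hx i (Finset.mem_insert_of_mem hi)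
    have hB0 : 0 ≤ B := by linarith
    refine (abs_add_le _ _).trans ?_
    rw [abs_mul, abs_mul]
    have h1 : |x a - y a| * |∏ i ∈ s, x i| ≤ δ * B ^ s.card :=
      mul_le_mul (hxy a (Finset.mem_insert_self _ _)) hP (abs_nonneg _) hδ
    have h2 : |y a| * |∏ i ∈ s, x i - ∏ i ∈ s, y i| ≤ B * (s.card * B ^ s.card * δ) :=
      mul_le_mul (hy a (Finset.mem_insert_self _ _)) ih' (abs_nonneg _) hB0
    refine (add_le_add h1 h2).trans ?_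
    push_cast
    rw [pow_succ]
    have h3 : δ * B ^ s.card ≤ B ^ s.card * B * δ := by
      have : 0 ≤ δ * B ^ s.card := by positivity
      nlinarith
    nlinarith

theorem prod_le {I : Type} (s : Finset I) (x : I → ℝ) {B : ℝ} (hB : 1 ≤ B) (hx : ∀ i ∈ s, |x i| ≤ B) {n : ℕ} (hn : s.card ≤ n) :
    |∏ i ∈ s, x i| ≤ B ^ n := by
  have : |∏ i ∈ s, x i| ≤ B ^ s.card := by
    rw [Finset.abs_prod, ← Finset.prod_const]
    exact Finset.prod_le_prod (fun _ _ => abs_nonneg _) hx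
  exact this.trans (pow_le_pow_right₀ hB hn)

section
variable {I : Type} [Fintype I] [DecidableEq I] {X : I → Type} [∀ i, Fintype (X i)] [∀ i, DecidableEq (X i)]

/-- the component of a tuple -/
def comp {A : Type} (i : I) (t : (Σ i, X i) → A) : X i → A := fun j => t ⟨i, j⟩

/-- **Independence of the components.** -/
theorem avg_comp {k : Type} [Fintype k] [DecidableEq k] [Nonempty k] (F : ∀ i, (X i → k) → ℝ) :
    (∑ t : (Σ i, X i) → k, ∏ i, F i (comp i t)) / Fintype.card ((Σ i, X i) → k) =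
      ∏ i, ((∑ x, F i x) / Fintype.card (X i → k)) := by
  classical
  have h1 : ∑ t : (Σ i, X i) → k, ∏ i, F i (comp i t) = ∑ p : (∀ i, X i → k), ∏ i, F i (p i) := by
    rw [← Equiv.sum_comp (Equiv.piCurry (fun (_ : I) (_ : X _) => k))]
    rfl
  have h2 : (Fintype.card ((Σ i, X i) → k) : ℝ) = ∏ i, (Fintype.card (X i → k) : ℝ) := by
    rw [Fintype.card_congr (Equiv.piCurry (fun (_ : I) (_ : X _) => k)), Fintype.card_pi]
    push_cast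
    rfl
  rw [Finset.prod_div_distrib, h1, h2, Finset.prod_univ_sum, Fintype.piFinset_univ]

end

section
variable {K : Type} [Field K] [NumberField K]
variable {I : Type} [Fintype I] [DecidableEq I] {J : I → Type} [∀ i, Fintype (J i)] [∀ i, DecidableEq (J i)]
variable (𝓕 : ∀ i, Family K (J i))

open Classical in
/-- the trace of the power `m + 1` of Frobenius -/
noncomputable def ar {J : Type} [Fintype J] [DecidableEq J] (𝓕 : Family K J) (v : HeightOneSpectrum (𝓞 K))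
    (t : Fin 2 ⊕ J → kv v) (m : ℕ) : ℝ := if ringChar (kv v) ≠ 2 then (trc (fpol 𝓕 v t) m : ℝ) else 0

theorem ar_av {J : Type} [Fintype J] [DecidableEq J] (𝓕 : Family K J) (v : HeightOneSpectrum (𝓞 K))
    (t : Fin 2 ⊕ J → kv v) (m : ℕ) : av 𝓕 v t m = (ar 𝓕 v t m : ℂ) := av_real 𝓕 v t m

theorem ar_zero {J : Type} [Fintype J] [DecidableEq J] (𝓕 : Family K J) (v : HeightOneSpectrum (𝓞 K))
    (t : Fin 2 ⊕ J → kv v) : ar 𝓕 v t 0 = aa 𝓕 v t := rfl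

theorem ar_le {J : Type} [Fintype J] [DecidableEq J] (𝓕 : Family K J) (v : HeightOneSpectrum (𝓞 K))
    (t : Fin 2 ⊕ J → kv v) (m : ℕ) : |ar 𝓕 v t m| ≤ DD 𝓕.F₀.natDegree * Real.sqrt (nv v) ^ (m + 1) := by
  have h := av_le 𝓕 v t m
  rwa [ar_av, Complex.norm_real, Real.norm_eq_abs] at h

theorem ar_eps {J : Type} [Fintype J] [DecidableEq J] (𝓕 : Family K J) (v : HeightOneSpectrum (𝓞 K))
    (t : Fin 2 ⊕ J → kv v) (m : ℕ) : ar 𝓕 v t m * eps 𝓕 v t = ar 𝓕 v t m := by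
  classical
  unfold ar eps
  by_cases h1 : ringChar (kv v) ≠ 2
  · by_cases h2 : (fpol 𝓕 v t).Separable
    · rw [if_pos h1, if_pos ⟨h1, h2⟩, mul_one]
    · rw [if_pos h1, if_neg (fun h => h2 h.2)]
      unfold trc
      rw [if_neg h2]
      simp
  · rw [if_neg h1, zero_mul]

theorem eps_sq {J : Type} [Fintype J] [DecidableEq J] (𝓕 : Family K J) (v : HeightOneSpectrum (𝓞 K))
    (t : Fin 2 ⊕ J → kv v) : eps 𝓕 v t * eps 𝓕 v t = eps 𝓕 v t := by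
  unfold eps; split_ifs <;> norm_num

/-- the constant -/
noncomputable def Cm {J : Type} (𝓕 : Family K J) : ℝ :=
  1 + C1 𝓕.F₀.natDegree + (2 * 𝓕.F₀.natDegree : ℕ) + 2 * 𝓕.rk * C1 𝓕.F₀.natDegree + 𝓕.rk ^ 2 + 𝓕.rk

theorem one_le_Cm {J : Type} (𝓕 : Family K J) : 1 ≤ Cm 𝓕 := by
  have := C1_nonneg 𝓕.F₀.natDegree
  have h : 0 ≤ C1 𝓕.F₀.natDegree + (2 * 𝓕.F₀.natDegree : ℕ) + 2 * 𝓕.rk * C1 𝓕.F₀.natDegree + 𝓕.rk ^ 2 + 𝓕.rk := by positivity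
  unfold Cm
  linarith

/-- The moments of one family, normalised. -/
theorem one_moments {J : Type} [Fintype J] [DecidableEq J] (𝓕 : Family K J) {v : HeightOneSpectrum (𝓞 K)} (hv : N0 𝓕 ∉ v.asIdeal) :
    |(∑ t, ar 𝓕 v t 0) / Fintype.card (Fin 2 ⊕ J → kv v) + 𝓕.rk| ≤ Cm 𝓕 / Real.sqrt (nv v) ∧
    |(∑ t, ar 𝓕 v t 0 ^ 2) / Fintype.card (Fin 2 ⊕ J → kv v) / nv v - 1| ≤ Cm 𝓕 / Real.sqrt (nv v) ∧
    |(∑ t, ar 𝓕 v t 1) / Fintype.card (Fin 2 ⊕ J → kv v) / nv v + 1| ≤ Cm 𝓕 / Real.sqrt (nv v) ∧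
    |(∑ t, eps 𝓕 v t) / Fintype.card (Fin 2 ⊕ J → kv v) - 1| ≤ Cm 𝓕 / Real.sqrt (nv v) := by
  obtain ⟨m1, m2⟩ := sum_aa 𝓕 hv
  obtain ⟨-, -, m3⟩ := local_moments 𝓕 hv
  have m4 := avg_eps 𝓕 hv
  obtain ⟨hQ1, hQQ⟩ := sqrt_facts v
  have hq := nv_pos v
  obtain ⟨Q, hQ⟩ : ∃ Q, Q = Real.sqrt (nv v) := ⟨_, rfl⟩
  rw [← hQ] at hQ1 hQQ m1 m2 m3 ⊢
  have hQ0 : 0 < Q := by linarith
  have hC := C1_nonneg 𝓕.F₀.natDegree
  have hc0 : (0 : ℝ) < Fintype.card (Fin 2 ⊕ J → kv v) := by exact_mod_cast Fintype.card_pos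
  have hc := hc0.ne'
  obtain ⟨N, hN⟩ : ∃ N : ℝ, N = Fintype.card (Fin 2 ⊕ J → kv v) := ⟨_, rfl⟩
  rw [← hN] at m1 m2 m4 hc hc0 ⊢
  have hrk : (0 : ℝ) ≤ 𝓕.rk := by positivity
  have hCm1 : C1 𝓕.F₀.natDegree ≤ Cm 𝓕 := by
    have h : 0 ≤ (2 * 𝓕.F₀.natDegree : ℕ) + 2 * 𝓕.rk * C1 𝓕.F₀.natDegree + 𝓕.rk ^ 2 + 𝓕.rk := by positivity
    unfold Cm
    linarith
  refine ⟨?_, ?_, ?_, ?_⟩
  · exact m1.trans (div_le_div_of_nonneg_right hCm1 hQ0.le)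
  · have e : (∑ t, ar 𝓕 v t 0 ^ 2) / N / nv v - 1 = ((((∑ t, (aa 𝓕 v t + 𝓕.rk) ^ 2) / N - nv v) -
        2 * 𝓕.rk * ((∑ t, aa 𝓕 v t) / N + 𝓕.rk)) + 𝓕.rk ^ 2) / nv v := by
      have e1 : ∑ t, (aa 𝓕 v t + 𝓕.rk) ^ 2 = ∑ t, ar 𝓕 v t 0 ^ 2 + 2 * 𝓕.rk * ∑ t, aa 𝓕 v t + N * 𝓕.rk ^ 2 := by
        rw [Finset.mul_sum, ← Finset.sum_add_distrib, hN]
        have e2 : (Fintype.card (Fin 2 ⊕ J → kv v) : ℝ) * (𝓕.rk : ℝ) ^ 2 = ∑ _t : Fin 2 ⊕ J → kv v, (𝓕.rk : ℝ) ^ 2 := by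
          rw [Finset.sum_const, Finset.card_univ, nsmul_eq_mul]
        rw [e2, ← Finset.sum_add_distrib]
        refine Finset.sum_congr rfl fun t _ => ?_
        rw [ar_zero]
        ring
      rw [e1]
      field_simp
      ring
    rw [e, abs_div, abs_of_pos hq, div_le_div_iff₀ hq hQ0]
    have h1 : |(((∑ t, (aa 𝓕 v t + 𝓕.rk) ^ 2) / N - nv v) - 2 * 𝓕.rk * ((∑ t, aa 𝓕 v t) / N + 𝓕.rk)) + 𝓕.rk ^ 2| ≤ Cm 𝓕 * Q := by
      refine (abs_add_le _ _).trans ((add_le_add (abs_sub _ _) le_rfl).trans ?_)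
      rw [abs_mul, abs_mul, abs_two, abs_of_nonneg hrk, abs_of_nonneg (by positivity : (0 : ℝ) ≤ (𝓕.rk : ℝ) ^ 2)]
      have g1 : 2 * (𝓕.rk : ℝ) * |(∑ t, aa 𝓕 v t) / N + 𝓕.rk| ≤ 2 * 𝓕.rk * C1 𝓕.F₀.natDegree * Q := by
        have : C1 𝓕.F₀.natDegree / Q ≤ C1 𝓕.F₀.natDegree * Q := by
          rw [div_le_iff₀ hQ0, mul_assoc]
          exact le_mul_of_one_le_right hC (one_le_mul_of_one_le_of_one_le hQ1 hQ1)
        calc 2 * (𝓕.rk : ℝ) * |(∑ t, aa 𝓕 v t) / N + 𝓕.rk| ≤ 2 * 𝓕.rk * (C1 𝓕.F₀.natDegree * Q) := by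
              have := m1.trans this
              gcongr
          _ = _ := by ring
      have g2 : (𝓕.rk : ℝ) ^ 2 ≤ 𝓕.rk ^ 2 * Q := le_mul_of_one_le_right (by positivity) hQ1
      have e3 : Cm 𝓕 * Q = C1 𝓕.F₀.natDegree * Q + 2 * 𝓕.rk * C1 𝓕.F₀.natDegree * Q + 𝓕.rk ^ 2 * Q +
          (1 + (2 * 𝓕.F₀.natDegree : ℕ) + 𝓕.rk) * Q := by unfold Cm; ring
      have g3 : 0 ≤ (1 + ((2 * 𝓕.F₀.natDegree : ℕ) : ℝ) + 𝓕.rk) * Q := by positivity
      rw [e3]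
      linarith
    calc _ ≤ Cm 𝓕 * Q * Q := mul_le_mul_of_nonneg_right h1 hQ0.le
      _ = Cm 𝓕 * nv v := by rw [mul_assoc, hQQ]
  · have e : ‖avg Finset.univ (fun t => av 𝓕 v t 1) + ((nv v : ℝ) : ℂ)‖ = |(∑ t, ar 𝓕 v t 1) / N + nv v| := by
      rw [← Real.norm_eq_abs, ← Complex.norm_real]
      congr 1
      unfold avg
      rw [Finset.card_univ, hN]
      simp only [ar_av]
      push_cast
      ring
    rw [e] at m3
    have e2 : (∑ t, ar 𝓕 v t 1) / N / nv v + 1 = ((∑ t, ar 𝓕 v t 1) / N + nv v) / nv v := by field_simp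
    rw [e2, abs_div, abs_of_pos hq, div_le_div_iff₀ hq hQ0]
    calc _ ≤ C1 𝓕.F₀.natDegree * Q * Q := mul_le_mul_of_nonneg_right m3 hQ0.le
      _ = C1 𝓕.F₀.natDegree * nv v := by rw [mul_assoc, hQQ]
      _ ≤ Cm 𝓕 * nv v := mul_le_mul_of_nonneg_right hCm1 hq.le
  · refine m4.trans ?_
    have h1 : (2 * 𝓕.F₀.natDegree : ℕ) / (nv v : ℝ) ≤ (2 * 𝓕.F₀.natDegree : ℕ) / Q := by
      refine div_le_div_of_nonneg_left (by positivity) hQ0 ?_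
      rw [← hQQ]; exact le_mul_of_one_le_left hQ0.le hQ1
    refine h1.trans (div_le_div_of_nonneg_right ?_ hQ0.le)
    have h : 0 ≤ 1 + C1 𝓕.F₀.natDegree + 2 * 𝓕.rk * C1 𝓕.F₀.natDegree + 𝓕.rk ^ 2 + 𝓕.rk := by positivity
    unfold Cm
    linarith

/-! ### the Kuenneth components -/

/-- the multiplicity of the component `⊗_{i ∈ S} H¹(C_i)` in the cohomology of degree `j` -/
def cS (I : Type) [Fintype I] (j : ℕ) (S : Finset I) : ℕ :=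
  if S.card ≤ j ∧ Even (j - S.card) then (Fintype.card I - S.card).choose ((j - S.card) / 2) else 0

/-- the factor of the component at `i` -/
noncomputable def ph (v : HeightOneSpectrum (𝓞 K)) (S : Finset I) (m : ℕ) (i : I) (x : Fin 2 ⊕ J i → kv v) : ℝ :=
  if i ∈ S then ar (𝓕 i) v x m / Real.sqrt (nv v) ^ (m + 1) else eps (𝓕 i) v x

/-- the normalised trace on the cohomology of degree `j` -/
noncomputable def bet (j : ℕ) (v : HeightOneSpectrum (𝓞 K)) (t : (Σ i, Fin 2 ⊕ J i) → kv v) (m : ℕ) : ℝ :=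
  ∑ S : Finset I, cS I j S * Real.sqrt (nv v) ^ (m + 1) * ∏ i, ph 𝓕 v S m i (comp i t)

/-- the bound of the factors -/
noncomputable def BD : ℝ := 1 + ∑ i, (DD (𝓕 i).F₀.natDegree + Cm (𝓕 i))

theorem BD_facts : 1 ≤ BD 𝓕 ∧ ∀ i, DD (𝓕 i).F₀.natDegree ≤ BD 𝓕 ∧ Cm (𝓕 i) ≤ BD 𝓕 := by
  have h0 : ∀ i, 0 ≤ DD (𝓕 i).F₀.natDegree + Cm (𝓕 i) := fun i => by
    have := DD_nonneg (𝓕 i).F₀.natDegree
    have := one_le_Cm (𝓕 i)
    linarith
  refine ⟨?_, fun i => ?_⟩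
  · have := Finset.sum_nonneg fun i (_ : i ∈ Finset.univ) => h0 i
    unfold BD
    linarith
  · have h1 := Finset.single_le_sum (f := fun i => DD (𝓕 i).F₀.natDegree + Cm (𝓕 i)) (fun i _ => h0 i) (Finset.mem_univ i)
    have h2 := DD_nonneg (𝓕 i).F₀.natDegree
    have h3 := one_le_Cm (𝓕 i)
    unfold BD
    constructor <;> linarith

theorem ph_le (v : HeightOneSpectrum (𝓞 K)) (S : Finset I) (m : ℕ) (i : I) (x : Fin 2 ⊕ J i → kv v) :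
    |ph 𝓕 v S m i x| ≤ BD 𝓕 := by
  obtain ⟨h1, h2⟩ := BD_facts 𝓕
  obtain ⟨hQ1, hQQ⟩ := sqrt_facts v
  unfold ph
  split_ifs
  · have h3 := ar_le (𝓕 i) v x m
    have hQ : 0 < Real.sqrt (nv v) ^ (m + 1) := by positivity
    rw [abs_div, abs_of_pos hQ, div_le_iff₀ hQ]
    exact h3.trans (mul_le_mul_of_nonneg_right (h2 i).1 hQ.le)
  · obtain ⟨h3, h4⟩ := eps_le (𝓕 i) v x
    rw [abs_of_nonneg h3]
    linarith

/-- the number of the components -/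
def Dc (I : Type) [Fintype I] (j : ℕ) : ℕ := ∑ S : Finset I, cS I j S

/-- the variance -/
def Dv (I : Type) [Fintype I] (j : ℕ) : ℕ := ∑ S : Finset I, cS I j S ^ 2

theorem bet_le (j : ℕ) (v : HeightOneSpectrum (𝓞 K)) (t : (Σ i, Fin 2 ⊕ J i) → kv v) (m : ℕ) :
    |bet 𝓕 j v t m| ≤ Dc I j * BD 𝓕 ^ Fintype.card I * Real.sqrt (nv v) ^ (m + 1) := by
  obtain ⟨h1, h2⟩ := BD_facts 𝓕
  obtain ⟨hQ1, hQQ⟩ := sqrt_facts v
  unfold bet Dc
  refine (Finset.abs_sum_le_sum_abs _ _).trans ?_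
  push_cast
  rw [Finset.sum_mul, Finset.sum_mul]
  refine Finset.sum_le_sum fun S _ => ?_
  rw [abs_mul, abs_mul, abs_of_nonneg (by positivity : (0 : ℝ) ≤ (cS I j S : ℝ)),
    abs_of_nonneg (by positivity : 0 ≤ Real.sqrt (nv v) ^ (m + 1))]
  have h3 : |∏ i, ph 𝓕 v S m i (comp i t)| ≤ BD 𝓕 ^ Fintype.card I :=
    prod_le _ _ h1 (fun i _ => ph_le 𝓕 v S m i _) le_rfl
  calc _ ≤ (cS I j S : ℝ) * Real.sqrt (nv v) ^ (m + 1) * BD 𝓕 ^ Fintype.card I := by gcongr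
    _ = _ := by ring

end

end Run7.h9.TP
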