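import Pool.Agent.Run7.h9.TP.Mom

/-!
# Products of curves: the means
-/

set_option autoImplicit false
set_option linter.unusedSectionVars false

namespace Run7.h9.TP

open NumberField IsDedekindDomain Finset Filter Topology Polynomial
open Run7.h876.MM (nv kv two_le_nv nv_pos avg card_kv norm_avg_le SZ mem_SZ instFieldKv instFintypeKv instDecKv)
open Run7.h876.EN Run7.h876.HY Run7.h9.BS

section
variable {K : Type} [Field K] [NumberField K]
variable {I : Type} [Fintype I] [DecidableEq I] {J : I → Type} [∀ i, Fintype (J i)] [∀ i, DecidableEq (J i)]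
variable (𝓕 : ∀ i, Family K (J i))

/-- mean over the residues -/
noncomputable def mn {J : Type} [Fintype J] [DecidableEq J] {v : HeightOneSpectrum (𝓞 K)} (F : (Fin 2 ⊕ J → kv v) → ℝ) : ℝ :=
  (∑ x, F x) / Fintype.card (Fin 2 ⊕ J → kv v)

theorem mn_const_mul {J : Type} [Fintype J] [DecidableEq J] {v : HeightOneSpectrum (𝓞 K)} (F : (Fin 2 ⊕ J → kv v) → ℝ) (c : ℝ) :
    mn (fun x => F x / c) = mn F / c := by
  unfold mn
  rw [← Finset.sum_div]
  ring

theorem rk_le {J : Type} (𝓕 : Family K J) : (𝓕.rk : ℝ) ≤ Cm 𝓕 := by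
  have := C1_nonneg 𝓕.F₀.natDegree
  have h : 0 ≤ 1 + C1 𝓕.F₀.natDegree + (2 * 𝓕.F₀.natDegree : ℕ) + 2 * 𝓕.rk * C1 𝓕.F₀.natDegree + 𝓕.rk ^ 2 := by positivity
  unfold Cm
  linarith

/-- all the bounds for one component -/
theorem comp_facts {v : HeightOneSpectrum (𝓞 K)} (hv : ∀ i, N0 (𝓕 i) ∉ v.asIdeal) (i : I) :
    |mn (fun x => ar (𝓕 i) v x 0) + (𝓕 i).rk| ≤ BD 𝓕 / Real.sqrt (nv v) ∧
    |mn (fun x => ar (𝓕 i) v x 0)| ≤ 2 * BD 𝓕 ∧
    |mn (fun x => ar (𝓕 i) v x 0 ^ 2) / nv v - 1| ≤ BD 𝓕 / Real.sqrt (nv v) ∧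
    |mn (fun x => ar (𝓕 i) v x 1) / nv v + 1| ≤ BD 𝓕 / Real.sqrt (nv v) ∧
    |mn (fun x => eps (𝓕 i) v x) - 1| ≤ BD 𝓕 / Real.sqrt (nv v) ∧
    |mn (fun x => eps (𝓕 i) v x)| ≤ 1 := by
  obtain ⟨m1, m2, m3, m4⟩ := one_moments (𝓕 i) (hv i)
  obtain ⟨h1, h2⟩ := BD_facts 𝓕
  obtain ⟨hQ1, hQQ⟩ := sqrt_facts v
  have hQ0 : 0 < Real.sqrt (nv v) := by linarith
  have h3 : Cm (𝓕 i) / Real.sqrt (nv v) ≤ BD 𝓕 / Real.sqrt (nv v) := div_le_div_of_nonneg_right (h2 i).2 hQ0.le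
  refine ⟨m1.trans h3, ?_, m2.trans h3, m3.trans h3, m4.trans h3, ?_⟩
  · have h4 : |mn (fun x => ar (𝓕 i) v x 0) + (𝓕 i).rk| ≤ BD 𝓕 :=
      (m1.trans h3).trans (div_le_self (by linarith) hQ1)
    have h5 := rk_le (𝓕 i)
    have h6 := (h2 i).2
    have h7 : (0 : ℝ) ≤ (𝓕 i).rk := by positivity
    have e : mn (fun x => ar (𝓕 i) v x 0) = (mn (fun x => ar (𝓕 i) v x 0) + (𝓕 i).rk) - (𝓕 i).rk := by ring
    rw [e]
    refine (abs_sub _ _).trans ?_
    rw [abs_of_nonneg h7]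
    linarith
  · unfold mn
    have hc : (0 : ℝ) < Fintype.card (Fin 2 ⊕ J i → kv v) := by exact_mod_cast Fintype.card_pos
    rw [abs_div, abs_of_pos hc, div_le_one hc]
    refine (Finset.abs_sum_le_sum_abs _ _).trans ?_
    have h4 : ∀ x, |eps (𝓕 i) v x| ≤ 1 := fun x => by
      obtain ⟨g1, g2⟩ := eps_le (𝓕 i) v x
      rwa [abs_of_nonneg g1]
    refine (Finset.sum_le_sum fun x _ => h4 x).trans (le_of_eq ?_)
    rw [Finset.sum_const, Finset.card_univ, nsmul_eq_mul, mul_one]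

/-- the mean of one factor -/
noncomputable def AS (v : HeightOneSpectrum (𝓞 K)) (S : Finset I) (m : ℕ) (i : I) : ℝ := mn (ph 𝓕 v S m i)

theorem mean_bet (j : ℕ) (v : HeightOneSpectrum (𝓞 K)) (m : ℕ) :
    (∑ t, bet 𝓕 j v t m) / Fintype.card ((Σ i, Fin 2 ⊕ J i) → kv v) =
      ∑ S : Finset I, cS I j S * (Real.sqrt (nv v) ^ (m + 1) * ∏ i, AS 𝓕 v S m i) := by
  unfold bet
  rw [Finset.sum_comm, Finset.sum_div]
  refine Finset.sum_congr rfl fun S _ => ?_
  rw [← Finset.mul_sum, mul_div_assoc, avg_comp (fun i => ph 𝓕 v S m i), mul_assoc]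
  rfl

theorem mean_bet_sq (j : ℕ) (v : HeightOneSpectrum (𝓞 K)) :
    (∑ t, bet 𝓕 j v t 0 ^ 2) / Fintype.card ((Σ i, Fin 2 ⊕ J i) → kv v) =
      ∑ S : Finset I, ∑ S' : Finset I, cS I j S * cS I j S' *
        (nv v * ∏ i, mn (fun x => ph 𝓕 v S 0 i x * ph 𝓕 v S' 0 i x)) := by
  obtain ⟨hQ1, hQQ⟩ := sqrt_facts v
  have h1 : ∀ t : (Σ i, Fin 2 ⊕ J i) → kv v, bet 𝓕 j v t 0 ^ 2 = ∑ S : Finset I, ∑ S' : Finset I,
      cS I j S * cS I j S' * nv v * ∏ i, (ph 𝓕 v S 0 i (comp i t) * ph 𝓕 v S' 0 i (comp i t)) := by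
    intro t
    unfold bet
    rw [sq, Finset.sum_mul_sum]
    refine Finset.sum_congr rfl fun S _ => Finset.sum_congr rfl fun S' _ => ?_
    rw [Finset.prod_mul_distrib, zero_add, pow_one]
    have h2 : ∀ a b c d Q q : ℝ, Q * Q = q → a * Q * b * (c * Q * d) = a * c * q * (b * d) := by
      intro a b c d Q q h
      rw [← h]; ring
    exact h2 _ _ _ _ _ _ hQQ
  simp only [h1]
  rw [Finset.sum_comm, Finset.sum_div]
  refine Finset.sum_congr rfl fun S _ => ?_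
  rw [Finset.sum_comm, Finset.sum_div]
  refine Finset.sum_congr rfl fun S' _ => ?_
  rw [← Finset.mul_sum, mul_div_assoc, avg_comp (fun i x => ph 𝓕 v S 0 i x * ph 𝓕 v S' 0 i x), mul_assoc]
  rfl

/-- a bound for all products -/
noncomputable def CC (𝓕 : ∀ i, Family K (J i)) : ℝ := ((Fintype.card I : ℝ) + 1) * (2 * BD 𝓕) ^ (Fintype.card I + 2)

theorem CC_facts : 1 ≤ 2 * BD 𝓕 ∧ Fintype.card I * (2 * BD 𝓕) ^ Fintype.card I * BD 𝓕 ≤ CC 𝓕 ∧
    (2 * BD 𝓕) ^ Fintype.card I * (2 * BD 𝓕) ≤ CC 𝓕 ∧ (2 * BD 𝓕) ^ Fintype.card I ≤ CC 𝓕 ∧ 0 ≤ CC 𝓕 := by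
  obtain ⟨h1, h2⟩ := BD_facts 𝓕
  have hb : 1 ≤ 2 * BD 𝓕 := by linarith
  have hp : 1 ≤ (2 * BD 𝓕) ^ Fintype.card I := one_le_pow₀ hb
  have hn : (0 : ℝ) ≤ Fintype.card I := by positivity
  have e : CC 𝓕 = ((Fintype.card I : ℝ) + 1) * ((2 * BD 𝓕) ^ Fintype.card I * (2 * BD 𝓕) * (2 * BD 𝓕)) := by
    unfold CC; rw [pow_add]; ring
  set P := (2 * BD 𝓕) ^ Fintype.card I with hP
  have hP0 : 0 ≤ P := by linarith
  have hPb : P ≤ P * (2 * BD 𝓕) := le_mul_of_one_le_right hP0 hb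
  have hPbb : P * (2 * BD 𝓕) ≤ P * (2 * BD 𝓕) * (2 * BD 𝓕) := le_mul_of_one_le_right (by positivity) hb
  have h3 : P * BD 𝓕 ≤ P * (2 * BD 𝓕) := mul_le_mul_of_nonneg_left (by linarith) hP0
  refine ⟨hb, ?_, ?_, ?_, ?_⟩
  · rw [e]
    calc (Fintype.card I : ℝ) * P * BD 𝓕 = Fintype.card I * (P * BD 𝓕) := by ring
      _ ≤ (Fintype.card I + 1) * (P * (2 * BD 𝓕) * (2 * BD 𝓕)) := by
          refine mul_le_mul (by linarith) (h3.trans hPbb) (by positivity) (by positivity)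
  · rw [e]
    refine hPbb.trans (le_mul_of_one_le_left (by positivity) (by linarith))
  · rw [e]
    exact (hPb.trans hPbb).trans (le_mul_of_one_le_left (by positivity) (by linarith))
  · rw [e]; positivity

theorem AS_mem {v : HeightOneSpectrum (𝓞 K)} {S : Finset I} {m : ℕ} {i : I} (h : i ∈ S) :
    AS 𝓕 v S m i = mn (fun x => ar (𝓕 i) v x m) / Real.sqrt (nv v) ^ (m + 1) := by
  unfold AS
  rw [← mn_const_mul]
  congr 1
  funext x
  unfold ph
  rw [if_pos h]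

theorem AS_notMem {v : HeightOneSpectrum (𝓞 K)} {S : Finset I} {m : ℕ} {i : I} (h : i ∉ S) :
    AS 𝓕 v S m i = mn (fun x => eps (𝓕 i) v x) := by
  unfold AS
  congr 1
  funext x
  unfold ph
  rw [if_neg h]

/-- the third moment statement -/
theorem moment_two (j : ℕ) (hj : Odd j) {v : HeightOneSpectrum (𝓞 K)} (hv : ∀ i, N0 (𝓕 i) ∉ v.asIdeal) :
    |(∑ t, bet 𝓕 j v t 1) / Fintype.card ((Σ i, Fin 2 ⊕ J i) → kv v) + Dc I j * nv v| ≤
      Dc I j * CC 𝓕 * Real.sqrt (nv v) := by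
  obtain ⟨h1, h2⟩ := BD_facts 𝓕
  obtain ⟨hb, c1, c2, c3, c4⟩ := CC_facts 𝓕
  obtain ⟨hQ1, hQQ⟩ := sqrt_facts v
  have hq := nv_pos v
  have hcf := comp_facts 𝓕 hv
  rw [mean_bet]
  obtain ⟨Q, hQ⟩ : ∃ Q, Q = Real.sqrt (nv v) := ⟨_, rfl⟩
  rw [← hQ] at hQ1 hQQ ⊢
  simp only [← hQ] at hcf
  have hQ0 : 0 < Q := by linarith
  have hkey : ∀ S : Finset I, cS I j S ≠ 0 → |∏ i, AS 𝓕 v S 1 i + 1| ≤ Fintype.card I * (2 * BD 𝓕) ^ Fintype.card I * (BD 𝓕 / Q) := by
    intro S hS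
    have hodd : Odd S.card := by
      unfold cS at hS
      split_ifs at hS with h
      · obtain ⟨a, ha⟩ := hj
        obtain ⟨b, hb'⟩ := h.2
        refine ⟨a - b, ?_⟩
        omega
      · exact absurd rfl hS
    have hy : ∏ i : I, (if i ∈ S then (-1 : ℝ) else 1) = -1 := by
      rw [Finset.prod_ite, Finset.prod_const_one, mul_one, Finset.prod_const, Finset.filter_mem_eq_inter, Finset.univ_inter]
      exact hodd.neg_one_pow
    have := prod_close (Finset.univ : Finset I) (fun i => AS 𝓕 v S 1 i) (fun i => if i ∈ S then (-1 : ℝ) else 1)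
      (B := 2 * BD 𝓕) (δ := BD 𝓕 / Q) hb (by positivity) (fun i _ => by
        obtain ⟨g1, g2, g3, g4, g5, g6⟩ := hcf i
        by_cases h : i ∈ S
        · rw [AS_mem 𝓕 h, ← hQ]
          have e : mn (fun x => ar (𝓕 i) v x 1) / Q ^ (1 + 1) = (mn (fun x => ar (𝓕 i) v x 1) / nv v + 1) - 1 := by
            rw [← hQQ]; ring
          rw [e]
          refine (abs_sub _ _).trans ?_
          rw [abs_one]
          have : BD 𝓕 / Q ≤ BD 𝓕 := div_le_self (by linarith) hQ1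
          linarith
        · rw [AS_notMem 𝓕 h]
          linarith) (fun i _ => by
        show |if i ∈ S then (-1 : ℝ) else 1| ≤ 2 * BD 𝓕
        split_ifs
        · rw [abs_neg, abs_one]; exact hb
        · rw [abs_one]; exact hb) (fun i _ => by
        obtain ⟨g1, g2, g3, g4, g5, g6⟩ := hcf i
        by_cases h : i ∈ S
        · simp only [if_pos h]
          rw [AS_mem 𝓕 h, ← hQ, sub_neg_eq_add]
          have e : mn (fun x => ar (𝓕 i) v x 1) / Q ^ (1 + 1) = mn (fun x => ar (𝓕 i) v x 1) / nv v := by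
            rw [← hQQ]; ring
          rw [e]
          exact g4
        · simp only [if_neg h]
          rw [AS_notMem 𝓕 h]
          exact g5)
    rw [hy, Finset.card_univ, sub_neg_eq_add] at this
    exact this
  have e : ∑ S : Finset I, (cS I j S : ℝ) * (Q ^ (1 + 1) * ∏ i, AS 𝓕 v S 1 i) + Dc I j * nv v =
      ∑ S : Finset I, (cS I j S : ℝ) * (Q ^ (1 + 1) * (∏ i, AS 𝓕 v S 1 i + 1)) := by
    unfold Dc
    push_cast
    rw [Finset.sum_mul, ← Finset.sum_add_distrib]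
    refine Finset.sum_congr rfl fun S _ => ?_
    rw [← hQQ]
    ring
  rw [e]
  refine (Finset.abs_sum_le_sum_abs _ _).trans ?_
  unfold Dc
  push_cast
  rw [Finset.sum_mul, Finset.sum_mul]
  refine Finset.sum_le_sum fun S _ => ?_
  rw [abs_mul, abs_of_nonneg (by positivity : (0 : ℝ) ≤ cS I j S), mul_assoc]
  by_cases h0 : cS I j S = 0
  · rw [h0]; simp
  · refine mul_le_mul_of_nonneg_left ?_ (by positivity)
    rw [abs_mul, abs_of_nonneg (by positivity : 0 ≤ Q ^ (1 + 1))]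
    calc Q ^ (1 + 1) * |∏ i, AS 𝓕 v S 1 i + 1| ≤ Q ^ (1 + 1) * (Fintype.card I * (2 * BD 𝓕) ^ Fintype.card I * (BD 𝓕 / Q)) := by
          have := hkey S h0
          gcongr
      _ = Fintype.card I * (2 * BD 𝓕) ^ Fintype.card I * BD 𝓕 * Q := by
          rw [pow_succ, pow_one]
          field_simp
      _ ≤ CC 𝓕 * Q := mul_le_mul_of_nonneg_right c1 hQ0.le

/-- the variance statement -/
theorem moment_sq (j : ℕ) {v : HeightOneSpectrum (𝓞 K)} (hv : ∀ i, N0 (𝓕 i) ∉ v.asIdeal) :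
    |(∑ t, bet 𝓕 j v t 0 ^ 2) / Fintype.card ((Σ i, Fin 2 ⊕ J i) → kv v) - Dv I j * nv v| ≤
      (Dc I j : ℝ) ^ 2 * CC 𝓕 * Real.sqrt (nv v) := by
  classical
  obtain ⟨h1, h2⟩ := BD_facts 𝓕
  obtain ⟨hb, c1, c2, c3, c4⟩ := CC_facts 𝓕
  obtain ⟨hQ1, hQQ⟩ := sqrt_facts v
  have hq := nv_pos v
  have hcf := comp_facts 𝓕 hv
  rw [mean_bet_sq]
  obtain ⟨Q, hQ⟩ : ∃ Q, Q = Real.sqrt (nv v) := ⟨_, rfl⟩
  rw [← hQ] at hQ1 hQQ ⊢
  simp only [← hQ] at hcf
  have hQ0 : 0 < Q := by linarith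
  -- the means of the products of two factors
  have hboth : ∀ (S S' : Finset I) (i : I), i ∈ S → i ∈ S' →
      mn (fun x => ph 𝓕 v S 0 i x * ph 𝓕 v S' 0 i x) = mn (fun x => ar (𝓕 i) v x 0 ^ 2) / nv v := by
    intro S S' i h h'
    rw [← mn_const_mul]
    congr 1
    funext x
    unfold ph
    rw [if_pos h, if_pos h', zero_add, pow_one, ← hQ, ← hQQ]
    field_simp
  have hone : ∀ (S S' : Finset I) (i : I), i ∈ S → i ∉ S' →
      mn (fun x => ph 𝓕 v S 0 i x * ph 𝓕 v S' 0 i x) = mn (fun x => ar (𝓕 i) v x 0) / Q := by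
    intro S S' i h h'
    rw [← mn_const_mul]
    congr 1
    funext x
    unfold ph
    rw [if_pos h, if_neg h', zero_add, pow_one, ← hQ, div_mul_eq_mul_div, ar_eps]
  have hone' : ∀ (S S' : Finset I) (i : I), i ∉ S → i ∈ S' →
      mn (fun x => ph 𝓕 v S 0 i x * ph 𝓕 v S' 0 i x) = mn (fun x => ar (𝓕 i) v x 0) / Q := by
    intro S S' i h h'
    rw [← hone S' S i h' h]
    congr 1
    funext x
    ring
  have hnone : ∀ (S S' : Finset I) (i : I), i ∉ S → i ∉ S' →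
      mn (fun x => ph 𝓕 v S 0 i x * ph 𝓕 v S' 0 i x) = mn (fun x => eps (𝓕 i) v x) := by
    intro S S' i h h'
    congr 1
    funext x
    unfold ph
    rw [if_neg h, if_neg h', eps_sq]
  have hbd : ∀ (S S' : Finset I) (i : I), |mn (fun x => ph 𝓕 v S 0 i x * ph 𝓕 v S' 0 i x)| ≤ 2 * BD 𝓕 := by
    intro S S' i
    obtain ⟨g1, g2, g3, g4, g5, g6⟩ := hcf i
    have hs : |mn (fun x => ar (𝓕 i) v x 0) / Q| ≤ 2 * BD 𝓕 := by
      rw [abs_div, abs_of_pos hQ0, div_le_iff₀ hQ0]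
      exact g2.trans (le_mul_of_one_le_right (by linarith) hQ1)
    by_cases h : i ∈ S
    · by_cases h' : i ∈ S'
      · rw [hboth S S' i h h']
        have e : mn (fun x => ar (𝓕 i) v x 0 ^ 2) / nv v = (mn (fun x => ar (𝓕 i) v x 0 ^ 2) / nv v - 1) + 1 := by ring
        rw [e]
        refine (abs_add_le _ _).trans ?_
        rw [abs_one]
        have : BD 𝓕 / Q ≤ BD 𝓕 := div_le_self (by linarith) hQ1
        linarith
      · rw [hone S S' i h h']; exact hs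
    · by_cases h' : i ∈ S'
      · rw [hone' S S' i h h']; exact hs
      · rw [hnone S S' i h h']; linarith
  have hdiag : ∀ S : Finset I, |∏ i, mn (fun x => ph 𝓕 v S 0 i x * ph 𝓕 v S 0 i x) - 1| ≤
      Fintype.card I * (2 * BD 𝓕) ^ Fintype.card I * (BD 𝓕 / Q) := by
    intro S
    have := prod_close (Finset.univ : Finset I) (fun i => mn (fun x => ph 𝓕 v S 0 i x * ph 𝓕 v S 0 i x)) (fun _ => (1 : ℝ))
      (B := 2 * BD 𝓕) (δ := BD 𝓕 / Q) hb (by positivity) (fun i _ => hbd S S i) (fun i _ => by rw [abs_one]; exact hb)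
      (fun i _ => by
        obtain ⟨g1, g2, g3, g4, g5, g6⟩ := hcf i
        by_cases h : i ∈ S
        · rw [hboth S S i h h]; exact g3
        · rw [hnone S S i h h]; exact g5)
    rw [Finset.prod_const_one, Finset.card_univ] at this
    exact this
  have hoff : ∀ S S' : Finset I, S ≠ S' → |∏ i, mn (fun x => ph 𝓕 v S 0 i x * ph 𝓕 v S' 0 i x)| ≤
      (2 * BD 𝓕) ^ Fintype.card I * (2 * BD 𝓕) / Q := by
    intro S S' hne
    obtain ⟨i₀, hi₀⟩ : ∃ i, ¬ (i ∈ S ↔ i ∈ S') := by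
      by_contra hcon
      push Not at hcon
      exact hne (Finset.ext hcon)
    obtain ⟨g1, g2, g3, g4, g5, g6⟩ := hcf i₀
    have hs : |mn (fun x => ph 𝓕 v S 0 i₀ x * ph 𝓕 v S' 0 i₀ x)| ≤ 2 * BD 𝓕 / Q := by
      have hs : |mn (fun x => ar (𝓕 i₀) v x 0) / Q| ≤ 2 * BD 𝓕 / Q := by
        rw [abs_div, abs_of_pos hQ0]
        exact div_le_div_of_nonneg_right g2 hQ0.le
      by_cases h : i₀ ∈ S
      · have h' : i₀ ∉ S' := fun h' => hi₀ ⟨fun _ => h', fun _ => h⟩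
        rw [hone S S' i₀ h h']; exact hs
      · have h' : i₀ ∈ S' := by
          by_contra h'
          exact hi₀ ⟨fun a => absurd a h, fun a => absurd a h'⟩
        rw [hone' S S' i₀ h h']; exact hs
    rw [← Finset.mul_prod_erase Finset.univ _ (Finset.mem_univ i₀), abs_mul]
    have h3 : |∏ i ∈ Finset.univ.erase i₀, mn (fun x => ph 𝓕 v S 0 i x * ph 𝓕 v S' 0 i x)| ≤ (2 * BD 𝓕) ^ Fintype.card I :=
      prod_le _ _ hb (fun i _ => hbd S S' i) ((Finset.card_erase_le).trans (le_of_eq Finset.card_univ))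
    calc _ ≤ 2 * BD 𝓕 / Q * (2 * BD 𝓕) ^ Fintype.card I := mul_le_mul hs h3 (abs_nonneg _) (by positivity)
      _ = _ := by ring
  have e : ∑ S : Finset I, ∑ S' : Finset I, (cS I j S : ℝ) * cS I j S' *
        (nv v * ∏ i, mn (fun x => ph 𝓕 v S 0 i x * ph 𝓕 v S' 0 i x)) - Dv I j * nv v =
      ∑ S : Finset I, ∑ S' : Finset I, (cS I j S : ℝ) * cS I j S' *
        (nv v * (∏ i, mn (fun x => ph 𝓕 v S 0 i x * ph 𝓕 v S' 0 i x) - if S = S' then 1 else 0)) := by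
    unfold Dv
    push_cast
    rw [Finset.sum_mul, ← Finset.sum_sub_distrib]
    refine Finset.sum_congr rfl fun S _ => ?_
    have e2 : (cS I j S : ℝ) ^ 2 * nv v = ∑ S' : Finset I, (cS I j S : ℝ) * cS I j S' * (nv v * if S = S' then 1 else 0) := by
      have : ∀ S' : Finset I, (cS I j S : ℝ) * cS I j S' * (nv v * if S = S' then 1 else 0) =
          if S = S' then (cS I j S : ℝ) * cS I j S' * nv v else 0 := by
        intro S'
        split_ifs <;> ring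
      rw [Finset.sum_congr rfl fun S' _ => this S', Finset.sum_ite_eq, if_pos (Finset.mem_univ _)]
      ring
    rw [e2, ← Finset.sum_sub_distrib]
    refine Finset.sum_congr rfl fun S' _ => ?_
    ring
  rw [e]
  refine (Finset.abs_sum_le_sum_abs _ _).trans ?_
  have e3 : (Dc I j : ℝ) ^ 2 * CC 𝓕 * Q = ∑ S : Finset I, ∑ S' : Finset I, (cS I j S : ℝ) * cS I j S' * (CC 𝓕 * Q) := by
    unfold Dc
    push_cast
    rw [sq, Finset.sum_mul_sum, Finset.sum_mul, Finset.sum_mul]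
    refine Finset.sum_congr rfl fun S _ => ?_
    rw [Finset.sum_mul, Finset.sum_mul]
    refine Finset.sum_congr rfl fun S' _ => ?_
    ring
  rw [e3]
  refine Finset.sum_le_sum fun S _ => (Finset.abs_sum_le_sum_abs _ _).trans (Finset.sum_le_sum fun S' _ => ?_)
  rw [abs_mul, abs_of_nonneg (by positivity : (0 : ℝ) ≤ (cS I j S : ℝ) * cS I j S')]
  refine mul_le_mul_of_nonneg_left ?_ (by positivity)
  rw [abs_mul, abs_of_pos hq]
  by_cases h : S = S'
  · subst h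
    rw [if_pos rfl]
    calc (nv v : ℝ) * |∏ i, mn (fun x => ph 𝓕 v S 0 i x * ph 𝓕 v S 0 i x) - 1| ≤
          nv v * (Fintype.card I * (2 * BD 𝓕) ^ Fintype.card I * (BD 𝓕 / Q)) := by
          have := hdiag S
          gcongr
      _ = Fintype.card I * (2 * BD 𝓕) ^ Fintype.card I * BD 𝓕 * Q := by rw [← hQQ]; field_simp
      _ ≤ CC 𝓕 * Q := mul_le_mul_of_nonneg_right c1 hQ0.le
  · rw [if_neg h, sub_zero]
    calc (nv v : ℝ) * |∏ i, mn (fun x => ph 𝓕 v S 0 i x * ph 𝓕 v S' 0 i x)| ≤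
          nv v * ((2 * BD 𝓕) ^ Fintype.card I * (2 * BD 𝓕) / Q) := by
          have := hoff S S' h
          gcongr
      _ = (2 * BD 𝓕) ^ Fintype.card I * (2 * BD 𝓕) * Q := by rw [← hQQ]; field_simp
      _ ≤ CC 𝓕 * Q := mul_le_mul_of_nonneg_right c2 hQ0.le

/-- the mean of the traces -/
def m1 (I : Type) [Fintype I] {J : I → Type} (𝓕 : ∀ i, Family K (J i)) (j : ℕ) : ℕ :=
  (Fintype.card I - 1).choose ((j - 1) / 2) * ∑ i, (𝓕 i).rk

theorem m1_eq (j : ℕ) (hj : Odd j) : (m1 I 𝓕 j : ℝ) = ∑ S : Finset I, cS I j S * if S.card = 1 then ∑ i ∈ S, ((𝓕 i).rk : ℝ) else 0 := by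
  classical
  have h1 : ∑ S : Finset I, (cS I j S : ℝ) * (if S.card = 1 then ∑ i ∈ S, ((𝓕 i).rk : ℝ) else 0) =
      ∑ S ∈ Finset.powersetCard 1 (Finset.univ : Finset I), (cS I j S : ℝ) * ∑ i ∈ S, ((𝓕 i).rk : ℝ) := by
    rw [Finset.powersetCard_eq_filter, Finset.sum_filter, Finset.powerset_univ]
    refine Finset.sum_congr rfl fun S _ => ?_
    split_ifs <;> simp
  rw [h1, Finset.powersetCard_one, Finset.sum_map]
  have h2 : ∀ i : I, cS I j {i} = (Fintype.card I - 1).choose ((j - 1) / 2) := by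
    intro i
    unfold cS
    rw [Finset.card_singleton, if_pos ⟨hj.pos, hj.tsub_odd odd_one⟩]
  unfold m1
  push_cast
  rw [Finset.mul_sum]
  refine Finset.sum_congr rfl fun i _ => ?_
  simp [h2]

theorem moment_one (j : ℕ) (hj : Odd j) {v : HeightOneSpectrum (𝓞 K)} (hv : ∀ i, N0 (𝓕 i) ∉ v.asIdeal) :
    |(∑ t, bet 𝓕 j v t 0) / Fintype.card ((Σ i, Fin 2 ⊕ J i) → kv v) + m1 I 𝓕 j| ≤
      Dc I j * CC 𝓕 / Real.sqrt (nv v) := by
  classical
  obtain ⟨h1, h2⟩ := BD_facts 𝓕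
  obtain ⟨hb, c1, c2, c3, c4⟩ := CC_facts 𝓕
  obtain ⟨hQ1, hQQ⟩ := sqrt_facts v
  have hq := nv_pos v
  have hcf := comp_facts 𝓕 hv
  rw [mean_bet, m1_eq 𝓕 j hj]
  obtain ⟨Q, hQ⟩ : ∃ Q, Q = Real.sqrt (nv v) := ⟨_, rfl⟩
  rw [← hQ] at hQ1 hQQ ⊢
  simp only [← hQ] at hcf
  have hQ0 : 0 < Q := by linarith
  rw [← Finset.sum_add_distrib]
  refine (Finset.abs_sum_le_sum_abs _ _).trans ?_
  unfold Dc
  push_cast
  rw [Finset.sum_mul, Finset.sum_div]
  refine Finset.sum_le_sum fun S _ => ?_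
  rw [← mul_add, abs_mul, abs_of_nonneg (by positivity : (0 : ℝ) ≤ cS I j S), mul_div_assoc]
  by_cases h0 : cS I j S = 0
  · rw [h0]; simp
  refine mul_le_mul_of_nonneg_left ?_ (by positivity)
  have hne : S.card ≠ 0 := by
    intro hc
    unfold cS at h0
    rw [hc, Nat.sub_zero] at h0
    split_ifs at h0 with h
    · exact (Nat.not_even_iff_odd.2 hj) h.2
    · exact h0 rfl
  have hp1 : Q ^ (0 + 1) = Q := by rw [zero_add, pow_one]
  rw [hp1]
  by_cases hS1 : S.card = 1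
  · obtain ⟨i₀, rfl⟩ := Finset.card_eq_one.1 hS1
    rw [if_pos hS1, Finset.sum_singleton]
    -- product with `Q` absorbed
    have e1 : Q * ∏ i, AS 𝓕 v {i₀} 0 i = ∏ i, (if i = i₀ then Q * AS 𝓕 v {i₀} 0 i else AS 𝓕 v {i₀} 0 i) := by
      rw [← Finset.mul_prod_erase Finset.univ _ (Finset.mem_univ i₀),
        ← Finset.mul_prod_erase Finset.univ (fun i => if i = i₀ then Q * AS 𝓕 v {i₀} 0 i else AS 𝓕 v {i₀} 0 i) (Finset.mem_univ i₀),
        if_pos rfl, mul_assoc]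
      congr 2
      refine Finset.prod_congr rfl fun i hi => ?_
      rw [if_neg (Finset.ne_of_mem_erase hi)]
    have e2 : -((𝓕 i₀).rk : ℝ) = ∏ i : I, (if i = i₀ then -((𝓕 i).rk : ℝ) else 1) := by
      rw [Finset.prod_ite_eq' Finset.univ i₀, if_pos (Finset.mem_univ _)]
    have h3 := prod_close (Finset.univ : Finset I) (fun i => if i = i₀ then Q * AS 𝓕 v {i₀} 0 i else AS 𝓕 v {i₀} 0 i)
      (fun i => if i = i₀ then -((𝓕 i).rk : ℝ) else 1) (B := 2 * BD 𝓕) (δ := BD 𝓕 / Q) hb (by positivity) (fun i _ => by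
        obtain ⟨g1, g2, g3, g4, g5, g6⟩ := hcf i
        by_cases h : i = i₀
        · subst h
          simp only [if_true]
          rw [AS_mem 𝓕 (Finset.mem_singleton_self i), zero_add, pow_one, ← hQ, mul_div_cancel₀ _ hQ0.ne']
          exact g2
        · simp only [if_neg h]
          rw [AS_notMem 𝓕 (fun h' => h (Finset.mem_singleton.1 h'))]
          linarith) (fun i _ => by
        show |if i = i₀ then -((𝓕 i).rk : ℝ) else 1| ≤ 2 * BD 𝓕
        split_ifs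
        · rw [abs_neg, abs_of_nonneg (by positivity)]
          have := rk_le (𝓕 i)
          have := (h2 i).2
          linarith
        · rw [abs_one]; exact hb) (fun i _ => by
        obtain ⟨g1, g2, g3, g4, g5, g6⟩ := hcf i
        by_cases h : i = i₀
        · subst h
          simp only [if_true]
          rw [AS_mem 𝓕 (Finset.mem_singleton_self i), zero_add, pow_one, ← hQ, mul_div_cancel₀ _ hQ0.ne', sub_neg_eq_add]
          exact g1
        · simp only [if_neg h]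
          rw [AS_notMem 𝓕 (fun h' => h (Finset.mem_singleton.1 h'))]
          exact g5)
    rw [← e1, ← e2, Finset.card_univ, sub_neg_eq_add] at h3
    refine h3.trans ?_
    rw [mul_div_assoc']
    exact div_le_div_of_nonneg_right c1 hQ0.le
  · rw [if_neg hS1, add_zero, abs_mul, abs_of_pos hQ0]
    have hS2 : 2 ≤ S.card := by omega
    have h3 : |∏ i, AS 𝓕 v S 0 i| ≤ (2 * BD 𝓕) ^ Fintype.card I / Q ^ 2 := by
      have e1 : ∏ i, AS 𝓕 v S 0 i = (∏ i, (if i ∈ S then mn (fun x => ar (𝓕 i) v x 0) else mn (fun x => eps (𝓕 i) v x))) /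
          Q ^ S.card := by
        have e2 : (Q ^ S.card : ℝ) = ∏ i : I, (if i ∈ S then Q else 1) := by
          rw [Finset.prod_ite, Finset.prod_const_one, mul_one, Finset.prod_const, Finset.filter_mem_eq_inter, Finset.univ_inter]
        rw [e2, ← Finset.prod_div_distrib]
        refine Finset.prod_congr rfl fun i _ => ?_
        by_cases h : i ∈ S
        · rw [AS_mem 𝓕 h, if_pos h, if_pos h, zero_add, pow_one, ← hQ]
        · rw [AS_notMem 𝓕 h, if_neg h, if_neg h, div_one]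
      rw [e1, abs_div, abs_of_pos (by positivity : 0 < Q ^ S.card)]
      refine div_le_div₀ (by positivity) ?_ (by positivity) (pow_le_pow_right₀ hQ1 hS2)
      refine prod_le _ _ hb (fun i _ => ?_) (le_of_eq Finset.card_univ)
      obtain ⟨g1, g2, g3, g4, g5, g6⟩ := hcf i
      split_ifs
      · exact g2
      · linarith
    calc Q * |∏ i, AS 𝓕 v S 0 i| ≤ Q * ((2 * BD 𝓕) ^ Fintype.card I / Q ^ 2) := mul_le_mul_of_nonneg_left h3 hQ0.le
      _ = (2 * BD 𝓕) ^ Fintype.card I / Q := by field_simp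
      _ ≤ CC 𝓕 / Q := div_le_div_of_nonneg_right c3 hQ0.le

end

end Run7.h9.TP
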